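import Pool.Agent.Helper23.MC.Goals1

/-!
# Prescribed clusters of primes in deserts of record size: statements, part 2 (primes)
-/

set_option autoImplicit false

open Finset Filter Topology

open scoped Classical

namespace Pool.Agent.Helper23.MC

open Pool.Agent.Helper88.PP (pr Rg om Sf SS uu vv ee LA VV QQ cost)
open Pool.Agent.Helper88.RR (gg ab TB WB nz wb DB Db VM)
open Pool.Agent.Helper88.GM (NI XI gB In)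
open Pool.Agent.Helper88.CG (tw pw th ic DS sg CN qE mE)

/-! ## Primes in progressions, relative to a modulus -/

/-- The relative equidistribution of the primes modulo `k D`, `D` a product of at most `r` primes of
`(Y1, Y2]`, with weights `L^#D`.
Proof.  `CG.StmtRB` (`Pool.Agent.Helper88.CG.mRB`), telescoping as in
`Pool/Agent/Helper88/CG/TE.lean`: for `D = p₁ < .. < p_s`
`th(k D) - th(k)/φ(D) = ∑_t [th(k p₁..p_t) - th(k p₁..p_{t-1})/(p_t - 1)]/φ(p_{t+1}..p_s)`.  So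
`D = D' p D''`; for fixed `D', D''` and `p ∈ (P, 2P]`, `P = Y1 2^i < Y2`, use `StmtRB` with the
modulus `k D'`.  Sums: `∑_{D'} L^#D'/D' ≤ exp(L S)`, `∑_{D''} L^#D''/φ(D'') ≤ exp(2 L S)`,
`S = ∑_{p ∈ pr Y1 Y2} 1/p`, and `∑_i (1/(Y1 2^i) + x^(-1/50)) ≤ 2/Y1 + 2 (log x) x^(-1/50)`. -/
def StmtRT : Prop := ∃ A x0 : ℕ, ∀ x k Y1 Y2 L r : ℕ, x0 ≤ x → 1 ≤ k → 2 ≤ Y1 → Y1 ≤ Y2 →
  1 ≤ L → (k * Y2 ^ r) ^ 4 ≤ x → 1 ≤ r →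
  ∀ a : Finset ℕ → ℕ, (∀ D ⊆ pr Y1 Y2, D.card ≤ r → Nat.Coprime (a D) (k * ∏ p ∈ D, p)) →
  (∀ p ∈ pr Y1 Y2, ¬ p ∣ k) →
  ∑ D ∈ (pr Y1 Y2).powerset.filter (fun D => D.card ≤ r), (L : ℝ) ^ D.card *
      |th x (k * ∏ p ∈ D, p) (a D) - th x k (a D) / (Nat.totient (∏ p ∈ D, p) : ℝ)|
    ≤ L * Real.exp (3 * L * ∑ p ∈ pr Y1 Y2, 1 / (p : ℝ)) * (x / k) * Real.log x ^ A *
      (1 / Y1 + (x : ℝ) ^ (-(1 / 50) : ℝ))

/-- A lower bound for the number of the primes `n + j` such that the `n + i`, `i ∈ B`, are rough.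
Proof.  Let `Q = QQ x`, `N = NI (x/32) x Q b`, `β = #B`.  If `gcd(b + j, Q) > 1` then no `n + j` is
prime and the left side is `≤ 0`.  Let `y2 = ⌊exp((log log x)^2)⌋` (`y ≤ y2 ≤ z`), `r = E/32`.
For `m ∈ {1, 2}` let `T_m(n) = ∑_{A ⊆ I_m, #A ≤ r} (-1)^#A ∏_{p ∈ A} [∃ i ∈ B, p ∣ n + i]`,
`I_1 = pr y y2`, `I_2 = pr y2 z`, `a_m(n) = ∏_{i ∈ B} [n + i has no prime factor in I_m]`, `E_m(n)` the
sum over `#A = r + 1`; then `|a_m - T_m| ≤ E_m` (Bonferroni) and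
`|a_1 a_2 - T_1 T_2| ≤ E_1 (1 + E_2) + E_2`, so (`#{n ∈ N : ..} ≤ XI/∏A + 1`, `pw ≤ 1`) the error is
at most `XI (4 (β S)^(r+1)/(r+1)! ..) + 4 (β z)^(2r+2)`, `S ≤ log log x`, at most `exp(-E) XI`.
(As `CG.StmtEB`, `Pool/Agent/Helper54/CG/EB.lean`.)
At most one `i ∈ B` has `p ∣ n + i` (the points are in `[1, y]`), so
`∑_n pw x (n+j) T_1 T_2 = ∑_{A₁, f₁, A₂, f₂} (-1)^(..) th x (Q ∏A₁ ∏A₂) a`, `f_m : A_m → B`, `a` the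
class with `a ≡ b + j (Q)`, `a ≡ j - f(p) (p)`, prime to the modulus.
Step 1: replace `th(Q A₁ A₂)` by `th(Q A₁)/φ(A₂)`: for fixed `A₁, f₁` and the worst `f₂`, `StmtRT` with
`k = Q ∏A₁`, `Y1 = y2`, `Y2 = z`, `L = β`, summed over `A₁`:
`≤ (x/Q) exp(C β log log x) (log x)^A (1/y2 + x^(-1/50))`, smaller than any power of `1/log x`.
Step 2: `th(Q A₁)/φ(A₂) - th(Q)/(φ(A₁) φ(A₂))`: this does not depend on `f₂`, and the class does not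
depend on `A₂`; so the sum over `A₂, f₂` is `σ₂ = ∑_{A₂} (-β)^#A₂/φ(A₂)`, with
`|σ₂| ≤ 2 ∏_{p ∈ I_2} (1 - β/(p-1)) ≤ 4 om y2 z ^ β`, and `StmtRT` with `k = Q`, `Y1 = y`,
`Y2 = y2` gives `≤ 4 om(y2,z)^β β (log log x)^(Cβ) (x/Q) (log x)^A (1/y + ..)`.
As `om y y2 ≥ c log y/log y2 ≥ c/log log x`, `om(y2,z)^β ≤ om(y,z)^β (C log log x)^β`, and
`y ≥ (log x)^A0`, `A0 = A + 3`, `om ≥ c E/log x`: it is `≤ η XI om/E om^β`.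
Step 3: the main term is `th(Q) σ₁ σ₂ = (∑_n pw x (n+j)) σ₁ σ₂` and
`σ₁ σ₂ ≥ (1 - η) om^β` (`1 - β/(p-1) ≥ (1 - 1/p)^β (1 - 2β²/p²)`, `p > y`). -/
def StmtCBL : Prop := ∃ A0 : ℕ, ∀ (A K0 : ℕ) (η : ℝ), 0 < η → ∃ E0 : ℕ, ∀ E z x y : ℕ, E0 ≤ E →
  SrA A E z x y → Real.log x ^ A0 ≤ y → ∀ b : ℕ, b < QQ x → ∀ B : Finset ℕ, B ⊆ Icc 1 y →
  B.card ≤ K0 → ∀ j ∈ Icc 1 y, j ∉ B →
  (1 - η) * (om y z ^ B.card * ∑ n ∈ NI (x / 32) x (QQ x) b, pw x (n + j))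
      - η * (XI (x / 32) x (QQ x) * (om y z / E) * om y z ^ B.card)
    ≤ ∑ n ∈ NI (x / 32) x (QQ x) b, (if ∀ i ∈ B, Rg y z (n + i) then pw x (n + j) else 0)

/-- `CG.StmtEB` for `y ≤ (log x)^A`.
Proof.  Copy `Pool/Agent/Helper54/CG/EB.lean` (`y ≤ (log x)^2` is used in `log_sq` only). -/
def StmtEBA : Prop := ∀ A : ℕ, ∃ x0 : ℕ, ∀ x y z b j r : ℕ, x0 ≤ x → Real.log x ≤ y →
  (y : ℝ) ≤ Real.log x ^ A → y ≤ z → b < QQ x → j ∈ Icc 1 y →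
  ∀ P : Finset ℕ, P ⊆ Icc 1 y → j ∉ P → ∀ d : P → ℕ, (∀ i, d i = 0 ∨ Sf z (d i)) →
  (∀ i i', i ≠ i' → d i ≠ 0 → d i' ≠ 0 → Nat.Coprime (d i) (d i')) →
  QQ x * z ^ r * (∏ i, max 1 (d i)) ^ 2 ≤ x / 32 →
  ∃ a : Finset ℕ → ℕ,
    (∀ A ⊆ pr y z, Nat.Coprime (a A) (QQ x * (∏ p ∈ A, p) * ∏ i, max 1 (d i))) ∧
    |CN x y z j (NI (x / 32) x (QQ x) b) d
        - CN x y z j (NI (x / 32) x (QQ x) b) (fun i => sg (d i)) /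
          (Nat.totient (∏ i, max 1 (d i)) : ℝ)|
      ≤ ∑ A ∈ (pr y z).powerset.filter (fun A => A.card ≤ r), (nz d : ℝ) ^ A.card *
          |th x (QQ x * (∏ p ∈ A, p) * ∏ i, max 1 (d i)) (a A)
            - th x (QQ x * ∏ p ∈ A, p) (a A) / (Nat.totient (∏ i, max 1 (d i)) : ℝ)|
        + 2 * XI (x / 32) x (QQ x) / (Nat.totient (∏ i, max 1 (d i)) : ℝ) *
            (((nz d : ℝ) * ∑ p ∈ pr y z, 1 / (p : ℝ)) ^ (r + 1) / (r + 1).factorial)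
        + 2 * ((nz d : ℝ) * z) ^ (r + 1)

/-- `CG.StmtER` for `SrA A`.
Proof.  Copy `Pool/Agent/Helper53/CG/ER.lean`, `ERa`, `ERb`, `ERc` (`y ≤ (log x)^2` is used for
`y ≤ z`, for the number `(y+1)^K ≤ exp(A' E^(2/3))` of the supports, and for `EB`).  `TE`
(`Pool.Agent.Helper88.CG.te mRB`) is used as it is: its conclusion does not contain `y`, apply it
with any `y'` such that `Sr E z x y'`, e.g. `y' = ⌈log x⌉`. -/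
def StmtERA : Prop := ∀ (A : ℕ) (C : ℝ), 1 ≤ C → ∃ c : ℝ, 0 < c ∧ ∃ E0 : ℕ, ∀ E z x y : ℕ,
  E0 ≤ E → SrA A E z x y → ∀ b : ℕ, b < QQ x → ∀ K : ℕ, K ^ 3 ≤ E → ∀ P : Finset ℕ,
  P ⊆ Icc 1 y → ∀ j ∈ Icc 1 y, j ∉ P →
  ∑ d ∈ (DS z (z ^ (2 * (E / 16))) K : Finset (P → ℕ)),
      (∏ i, (if d i = 0 then 1 else 3 * C ^ 2 * 3 ^ (d i).primeFactors.card)) *
      |CN x y z j (NI (x / 32) x (QQ x) b) d
        - CN x y z j (NI (x / 32) x (QQ x) b) (fun i => sg (d i)) *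
          ∏ i, (if d i = 0 then 1 else 1 / (d i : ℝ))|
    ≤ Real.exp (-(c * E)) * XI (x / 32) x (QQ x)

/-- LOWER BOUND FOR THE PRIMES UNDER THE WEIGHT.
Proof.  As `Pool/Agent/Helper42/CG/LB.lean`.  `CG.StmtWT` (`Helper67.CG.wt`) on `P ∪ B` with
`w n = pw x (n + j)`, `T` the products of `TB` and `T`, coefficients the products,
`G d = CN d`, `D = z^(2 (E/16))` (products of labels `≤ z^(2 (E/32))`, squares `≤ z^(4 (E/32))`),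
`al` as in `StmtTGA` (at `i ∈ B`: `C/(E φ(r))` on `SS z (z^(E/32))`, so that
`d ∑_{d ∣ r} al ≤ C''`, `RR.StmtCB` and `Helper24.PP.ma`), and `StmtERA` on `P ∪ B`:
`∑ pw W1² VH² = ∑_{r, s} (∏ ab² φ) (κ s² ∏ φ) CN(sg (r, s)) ± exp(-cE) XI
 = NH * ∑_{n : n + i rough for i ∈ B} pw x (n+j) D(S(n)) ± ..`, where `S(n)` is the set of the
`h ∈ P` with `n + h` rough and `D(S)` the right side of `StmtCMA`.  Let `μ = #P om`.  If `μ ≤ √E`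
use `StmtCMA`.  If `μ > √E`, the `n` with `n + j` prime, `n + i` rough for `i ∈ B` and
`#S(n) < μ (1 - η/(8(K₀+1)))`, `K₀ = E/32/mE E`, are at most
`C XI (om/E) om^#B (μ+1) (8(K₀+1)/(η μ))²` by `StmtCOB`, and `(K₀+1)²/μ → 0`. -/
def StmtLV : Prop := ∀ (A K0 : ℕ) (C η : ℝ), 1 ≤ C → 0 < η → ∃ c : ℝ, 0 < c ∧ ∃ E0 : ℕ,
  ∀ E z x y : ℕ, E0 ≤ E → SrA A E z x y → ∀ b : ℕ, b < QQ x → ∀ P B : Finset ℕ, P ⊆ Icc 1 y →
  B ⊆ Icc 1 y → Disjoint P B → B.card ≤ K0 → (P.card : ℝ) * om y z ≤ (E : ℝ) ^ 2 / 2 →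
  ∀ j ∈ Icc 1 y, j ∉ P → j ∉ B →
  ∀ (T : Finset (B → ℕ)) (κ : (B → ℕ) → ℝ), Ad C E z B T κ →
  D1 E z y P * NH B T κ *
      ((1 - η) * (∑ n ∈ NI (x / 32) x (QQ x) b,
          (if ∀ i ∈ B, Rg y z (n + i) then pw x (n + j) else 0))
        - η * (XI (x / 32) x (QQ x) * (om y z / E) * om y z ^ B.card))
      - Real.exp (-(c * E)) * XI (x / 32) x (QQ x)
    ≤ ∑ n ∈ NI (x / 32) x (QQ x) b, pw x (n + j) * (W1 E z y P n ^ 2 * VH y z B T κ n ^ 2)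

/-- The two lower bounds together, for divisors `Q` of `QQ x`.
Proof.  `StmtLV` and `StmtCBL` for all `b' < QQ x` with `b' % Q = b`, summed
(`NI (x/32) x Q b` is the disjoint union of the `NI (x/32) x (QQ x) b'`, and
`XI (x/32) x Q = (QQ x/Q) XI (x/32) x (QQ x)`, as `CR.StmtLQ`, `Pool/Agent/Helper*/CR/LQ.lean`,
`Helper88.CR.mLQ`); `(1 - η)² ≥ 1 - 2η`. -/
def StmtLVQ : Prop := ∃ A0 : ℕ, ∀ (A K0 : ℕ) (C η : ℝ), 1 ≤ C → 0 < η → ∃ c : ℝ, 0 < c ∧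
  ∃ E0 : ℕ, ∀ E z x y : ℕ, E0 ≤ E → SrA A E z x y → Real.log x ^ A0 ≤ y → ∀ Q b : ℕ, Q ∣ QQ x →
  b < Q → ∀ P B : Finset ℕ, P ⊆ Icc 1 y → B ⊆ Icc 1 y → Disjoint P B → B.card ≤ K0 →
  (P.card : ℝ) * om y z ≤ (E : ℝ) ^ 2 / 2 → ∀ j ∈ Icc 1 y, j ∉ P → j ∉ B →
  ∀ (T : Finset (B → ℕ)) (κ : (B → ℕ) → ℝ), Ad C E z B T κ →
  D1 E z y P * NH B T κ * om y z ^ B.card *
      ((1 - η) * (∑ n ∈ NI (x / 32) x Q b, pw x (n + j))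
        - η * (XI (x / 32) x Q * (om y z / E)))
      - Real.exp (-(c * E)) * XI (x / 32) x Q
    ≤ ∑ n ∈ NI (x / 32) x Q b, pw x (n + j) * (W1 E z y P n ^ 2 * VH y z B T κ n ^ 2)

end Pool.Agent.Helper23.MC
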