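import Pool.Agent.Helper54.CG.EB
import Pool.Agent.Helper23.MC.Goals2

/-! # Packet MC-EBA (adaptation of helper54's packet EB) -/

set_option autoImplicit false

open Finset Filter Topology

open scoped Classical

namespace Pool.Agent.Helper23.MC

open Pool.Agent.Helper54.CG
open Pool.Agent.Helper88.CG
open Pool.Agent.Helper88.PP (pr Rg Sf SS QQ)
open Pool.Agent.Helper88.RR (nz)
open Pool.Agent.Helper88.GM (NI XI)
open Pool.Agent.Helper6.RR (el alt alt_bound el_le)

theorem log_pow (A : ℕ) : ∃ x0 : ℕ, ∀ x : ℕ, x0 ≤ x → Real.log x ^ A ≤ (x : ℝ) / 32 := by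
  have h1 := (Real.isLittleO_pow_log_id_atTop (n := A)).bound (show (0 : ℝ) < 1 / 32 by norm_num)
  have h2 := tendsto_natCast_atTop_atTop.eventually h1
  obtain ⟨x0, hx0⟩ := eventually_atTop.1 h2
  refine ⟨x0, fun x hx => ?_⟩
  have h3 := hx0 x hx
  simp only [Real.norm_eq_abs, id] at h3
  have h4 := le_abs_self (Real.log (x : ℝ) ^ A)
  rw [Nat.abs_cast] at h3
  linarith

/-- **Packet MC-EBA.** -/
theorem eba : StmtEBA := by
  intro A₀
  obtain ⟨x0, hx0⟩ := log_pow A₀
  refine ⟨max x0 1, ?_⟩
  intro x y z b j r hx hy1 hy2 hyz hb hj P hP hjP d hd hdc hlarge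
  have hx1 : 0 < x := lt_of_lt_of_le one_pos ((le_max_right _ _).trans hx)
  rw [mem_Icc] at hj
  have hjx : (j : ℝ) ≤ x / 32 := by
    have h1 := hx0 x ((le_max_left _ _).trans hx)
    have h2 : (j : ℝ) ≤ y := by exact_mod_cast hj.2
    linarith
  set N := NI (x / 32) x (QQ x) b with hN
  set D : ℕ := ∏ i : P, max 1 (d i) with hD
  have hD0 : 0 < D := prod_pos (fun i _ => lt_of_lt_of_le one_pos (le_max_left _ _))
  have hΦ0 : 0 < Nat.totient D := Nat.totient_pos.2 hD0
  have hΦ1 : (1 : ℝ) ≤ (Nat.totient D : ℝ) := by exact_mod_cast hΦ0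
  have hΦD : (Nat.totient D : ℝ) ≤ D := by exact_mod_cast Nat.totient_le D
  have hΦpos : (0 : ℝ) < (Nat.totient D : ℝ) := by linarith
  have hXI : 0 ≤ XI (x / 32) x (QQ x) := by unfold XI; positivity
  by_cases hco : Nat.Coprime (b + j) (QQ x)
  swap
  · -- no primes at all
    have hz : ∀ d' : P → ℕ, CN x y z j N d' = 0 := by
      intro d'
      unfold CN
      apply sum_eq_zero
      intro n hn
      have h0 : pw x (n + j) = 0 := by
        by_contra h1
        obtain ⟨h2, -, -⟩ := pw_supp hx1 h1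
        apply hco
        rw [Nat.coprime_comm]
        apply Nat.coprime_of_dvd
        intro p hp h3 h4
        have hn' := mem_filter.1 hn
        have h5 : p ∣ n + j := by
          have h6 : n + j ≡ b + j [MOD p] := by
            apply Nat.ModEq.add_right
            have h7 : n ≡ b [MOD QQ x] := by
              show n % QQ x = b % QQ x
              rw [hn'.2, Nat.mod_eq_of_lt hb]
            exact h7.of_dvd h3
          exact (h6.dvd_iff (dvd_refl p)).2 h4
        rcases (Nat.dvd_prime h2).1 h5 with h6 | h6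
        · exact hp.one_lt.ne' h6
        · have h7 := Nat.le_of_dvd (QQ_pos x) h3
          have h8 := (mem_Ioc.1 hn'.1).1
          have h9 : QQ x ≤ x / 32 := by
            refine le_trans ?_ hlarge
            rw [mul_assoc]
            apply Nat.le_mul_of_pos_right
            have hz0 : 0 < z := by omega
            positivity
          omega
      rw [h0, zero_mul]
    refine ⟨fun _ => 1, fun A _ => Nat.coprime_one_left _, ?_⟩
    rw [hz, hz, zero_div, sub_zero, abs_zero]
    have h1 : 0 ≤ ∑ p ∈ pr y z, 1 / (p : ℝ) := sum_nonneg (fun p _ => by positivity)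
    apply add_nonneg (add_nonneg _ _) (by positivity)
    · apply sum_nonneg
      intro A _
      positivity
    · positivity
  · set S := pr y z with hS
    set B : Finset P := univ.filter (fun i : P => d i ≠ 0) with hB
    have hk : nz d = B.card := rfl
    set w1 : ℕ → ℝ := fun n => pw x (n + j) *
      (if ∀ i : P, max 1 (d i) ∣ n + (i : ℕ) then 1 else 0) with hw1
    set w2 : ℕ → ℝ := fun n => pw x (n + j) with hw2
    have hkey : ∀ A : Finset ℕ, A ⊆ S → ∀ f : (∀ p ∈ A, P), _ := fun A hA f =>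
      key hx1 hy1 hyz hb hj hjx hP hjP hd hdc hco hA f
    have hCN1 : CN x y z j N d = ∑ n ∈ N, w1 n * ∏ p ∈ S, (1 - xx B n p) := by
      unfold CN
      apply sum_congr rfl
      intro n _
      rw [prod_ic, prod_xx hP, hw1, mul_assoc]
    have hCN2 : CN x y z j N (fun i => sg (d i)) = ∑ n ∈ N, w2 n * ∏ p ∈ S, (1 - xx B n p) := by
      unfold CN
      apply sum_congr rfl
      intro n _
      rw [prod_ic_sg, prod_xx hP]
    have hxx : ∀ n, ∀ p ∈ S, 0 ≤ xx B n p ∧ xx B n p ≤ 1 := fun n p hp =>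
      xx_range hP (mem_pr' hp).1
    have hw1' : ∀ n, 0 ≤ w1 n := by
      intro n
      apply mul_nonneg (pw_nonneg _ _)
      split_ifs <;> norm_num
    have hw2' : ∀ n, 0 ≤ w2 n := fun n => pw_nonneg _ _
    have e1 := bonf B S N w1 hw1' hxx r
    have e2 := bonf B S N w2 hw2' hxx r
    rw [← hCN1] at e1
    rw [← hCN2] at e2
    -- the worst functions
    have ha : ∀ A : Finset ℕ, ∃ a : ℕ, A ⊆ S → (Nat.Coprime a (QQ x * (∏ p ∈ A, p) * D) ∧
        ∀ f ∈ A.pi (fun _ => B), |Tw N w1 A f - Tw N w2 A f / (Nat.totient D : ℝ)| ≤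
          |th x (QQ x * (∏ p ∈ A, p) * D) a - th x (QQ x * ∏ p ∈ A, p) a /
            (Nat.totient D : ℝ)|) := by
      intro A
      by_cases hA : A ⊆ S
      · by_cases hne : (A.pi (fun _ => B)).Nonempty
        · obtain ⟨f0, hf0, hmax⟩ := exists_max_image (A.pi (fun _ => B))
            (fun f => |Tw N w1 A f - Tw N w2 A f / (Nat.totient D : ℝ)|) hne
          obtain ⟨a, h1, h2, h3, -, -⟩ := hkey A hA f0
          refine ⟨a, fun _ => ⟨h1, fun f hf => ?_⟩⟩
          have h4 := hmax f hf
          rw [← h2, ← h3]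
          exact h4
        · refine ⟨1, fun _ => ⟨Nat.coprime_one_left _, fun f hf => ?_⟩⟩
          exact absurd ⟨f, hf⟩ hne
      · exact ⟨1, fun h => absurd h hA⟩
    choose a ha using ha
    refine ⟨a, fun A hA => (ha A hA).1, ?_⟩
    have e3 : |∑ j' ∈ range (r + 1), (-1) ^ j' * EE B S N w1 j' -
        (∑ j' ∈ range (r + 1), (-1) ^ j' * EE B S N w2 j') / (Nat.totient D : ℝ)| ≤
        ∑ A ∈ S.powerset.filter (fun A => A.card ≤ r), (nz d : ℝ) ^ A.card *
          |th x (QQ x * (∏ p ∈ A, p) * D) (a A) - th x (QQ x * ∏ p ∈ A, p) (a A) /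
            (Nat.totient D : ℝ)| := by
      rw [← sum_card_le, sum_div, ← sum_sub_distrib]
      refine (abs_sum_le_sum_abs _ _).trans (sum_le_sum fun j' _ => ?_)
      have h1 : (-1 : ℝ) ^ j' * EE B S N w1 j' - (-1) ^ j' * EE B S N w2 j' /
          (Nat.totient D : ℝ) = (-1) ^ j' * ∑ A ∈ S.powersetCard j', ∑ f ∈ A.pi (fun _ => B),
            (Tw N w1 A f - Tw N w2 A f / (Nat.totient D : ℝ)) := by
        unfold EE
        simp only [sum_sub_distrib, ← sum_div]
        ring
      rw [h1, abs_mul, abs_pow, abs_neg, abs_one, one_pow, one_mul]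
      refine (abs_sum_le_sum_abs _ _).trans (sum_le_sum fun A hA => ?_)
      have hA' := mem_powersetCard.1 hA
      refine (abs_sum_le_sum_abs _ _).trans ?_
      refine (sum_le_sum (fun f hf => (ha A hA'.1).2 f hf)).trans (le_of_eq ?_)
      rw [sum_const, card_pi, prod_const, nsmul_eq_mul, hk]
      push_cast
      rfl
    have hScard : (S.card : ℝ) ≤ z := by
      have : S.card ≤ z := by
        calc S.card ≤ (Ioc y z).card := card_filter_le _ _
          _ = z - y := Nat.card_Ioc _ _
          _ ≤ z := Nat.sub_le _ _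
      exact_mod_cast this
    have hQ0 : (0 : ℝ) < (QQ x : ℝ) := by exact_mod_cast QQ_pos x
    have hDr : (0 : ℝ) < (D : ℝ) := by exact_mod_cast hD0
    have e4 := EE_le B S N w1 r (XI (x / 32) x (QQ x) / D) z (by positivity) hScard
      (fun A hA f => by
        obtain ⟨a', -, -, -, h4, -⟩ := hkey A (mem_powersetCard.1 hA).1 f
        refine h4.trans (le_of_eq ?_)
        unfold XI
        rw [← hD, Nat.cast_mul, Nat.cast_mul, div_div, div_div]
        congr 2
        ring)
    have e5 := EE_le B S N w2 r (XI (x / 32) x (QQ x)) z hXI hScard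
      (fun A hA f => by
        obtain ⟨a', -, -, -, -, h5⟩ := hkey A (mem_powersetCard.1 hA).1 f
        refine h5.trans (le_of_eq ?_)
        unfold XI
        push_cast
        rw [div_div])
    set G : ℝ := (((B.card : ℝ) * ∑ p ∈ S, 1 / (p : ℝ)) ^ (r + 1) / (r + 1).factorial) with hG
    have hG0 : 0 ≤ G := by
      have h1 : 0 ≤ ∑ p ∈ S, 1 / (p : ℝ) := sum_nonneg (fun p _ => by positivity)
      positivity
    have hZ0 : 0 ≤ ((B.card : ℝ) * z) ^ (r + 1) := by positivity
    have e6 : XI (x / 32) x (QQ x) / D * G ≤ XI (x / 32) x (QQ x) / (Nat.totient D : ℝ) * G := by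
      apply mul_le_mul_of_nonneg_right _ hG0
      exact div_le_div_of_nonneg_left hXI hΦpos hΦD
    have e7 : EE B S N w2 (r + 1) / (Nat.totient D : ℝ) ≤
        XI (x / 32) x (QQ x) / (Nat.totient D : ℝ) * G + ((B.card : ℝ) * z) ^ (r + 1) := by
      calc EE B S N w2 (r + 1) / (Nat.totient D : ℝ) ≤
            (XI (x / 32) x (QQ x) * G + ((B.card : ℝ) * z) ^ (r + 1)) / (Nat.totient D : ℝ) :=
            div_le_div_of_nonneg_right e5 hΦpos.le
        _ = XI (x / 32) x (QQ x) / (Nat.totient D : ℝ) * G +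
            ((B.card : ℝ) * z) ^ (r + 1) / (Nat.totient D : ℝ) := by ring
        _ ≤ _ := by
          have := div_le_self hZ0 hΦ1
          linarith
    have e8 : |(CN x y z j N (fun i => sg (d i)) -
        ∑ j' ∈ range (r + 1), (-1) ^ j' * EE B S N w2 j') / (Nat.totient D : ℝ)| ≤
        EE B S N w2 (r + 1) / (Nat.totient D : ℝ) := by
      rw [abs_div, abs_of_pos hΦpos]
      exact div_le_div_of_nonneg_right e2 hΦpos.le
    have e9 : CN x y z j N d - CN x y z j N (fun i => sg (d i)) / (Nat.totient D : ℝ) =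
        (CN x y z j N d - ∑ j' ∈ range (r + 1), (-1) ^ j' * EE B S N w1 j') +
        (∑ j' ∈ range (r + 1), (-1) ^ j' * EE B S N w1 j' -
          (∑ j' ∈ range (r + 1), (-1) ^ j' * EE B S N w2 j') / (Nat.totient D : ℝ)) -
        (CN x y z j N (fun i => sg (d i)) -
          ∑ j' ∈ range (r + 1), (-1) ^ j' * EE B S N w2 j') / (Nat.totient D : ℝ) := by
      ring
    rw [e9]
    have e10 : ∀ u v w : ℝ, |u + v - w| ≤ |u| + |v| + |w| := by
      intro u v w
      calc |u + v - w| ≤ |u + v| + |w| := abs_sub _ _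
        _ ≤ _ := by linarith [abs_add_le u v]
    refine (e10 _ _ _).trans ?_
    rw [hk] at e3 ⊢
    rw [← hG]
    have e11 : 2 * XI (x / 32) x (QQ x) / (Nat.totient D : ℝ) * G =
        XI (x / 32) x (QQ x) / (Nat.totient D : ℝ) * G +
          XI (x / 32) x (QQ x) / (Nat.totient D : ℝ) * G := by ring
    rw [e11]
    linarith

end Pool.Agent.Helper23.MC
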