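import Pool.Agent.Helper23.MC.FRMa

/-! # Project MC: the windows -/

set_option autoImplicit false

open Finset Filter Topology

open scoped Classical

namespace Pool.Agent.Helper23.MC

open Pool.Agent.Helper32.CR (pw_le om_nonneg large coprime_iff)
open Pool.Agent.Helper88.PP (pr Rg om Sf SS uu vv ee LA VV QQ cost)
open Pool.Agent.Helper88.RR (gg ab TB WB nz wb DB Db VM)
open Pool.Agent.Helper88.GM (NI XI gB In)
open Pool.Agent.Helper88.CG (tw pw th ic DS sg CN qE mE)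
open Pool.Agent.Helper88.CR (Rec)

/-- Maynard's lower bound for one `K`, with ratio `ρ` -/
def MTH (K : ℕ) (ρ c3 : ℝ) : Prop := ∃ (β : ℕ) (C : ℝ), 1 ≤ C ∧ ∃ E0 : ℕ,
  ∀ E z : ℕ, E0 ≤ E → E ≤ z → ∀ H : Finset ℕ, H.card = K →
  Ad 1 E z H (TH E z H) (kH E z β H) ∧
  (∀ j ∈ H, Ad C E z (H.erase j) (Tj H j (TH E z H)) (kj H j (TH E z H) (kH E z β H))) ∧
  1 / (2 * (E : ℝ)) ^ (2 * K) ≤ NH H (TH E z H) (kH E z β H) ∧
  ρ * NH H (TH E z H) (kH E z β H) ≤
    c3 / E * ∑ j ∈ H, NH (H.erase j) (Tj H j (TH E z H)) (kj H j (TH E z H) (kH E z β H))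

/-- the choice of the class for one `K`, with constant `C` -/
def RCHH (K : ℕ) (C : ℝ) : Prop := ∃ w0 : ℕ, ∀ w p Y : ℕ, w0 ≤ w →
  p.Prime → p ≤ w → w * Real.log w ≤ Y → (Y : ℝ) ≤ w * Real.log w ^ 4 →
  ∀ H : Finset ℕ, H ⊆ Icc 1 Y → H.card = K →
  (∀ l : ℕ, l.Prime → ∃ a : ℕ, ∀ h ∈ H, ¬ h ≡ a [MOD l]) →
  ∃ b : ℕ, b < primorial w / p ∧ (∀ h ∈ H, Nat.Coprime (b + h) (primorial w / p)) ∧
  (((Icc 1 Y).filter (fun h => Nat.Coprime (b + h) (primorial w / p))).card : ℝ)
    ≤ C * (Y * Real.log (Real.log w) ^ 2 /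
        (Real.log w ^ 2 * Real.log (Real.log (Real.log w))))

/-- the windows, for one `K`, with more than `k` primes -/
def FRC (K k : ℕ) (c : ℝ) : Prop := ∃ x0 : ℕ, ∀ x : ℕ, x0 ≤ x →
  ∃ Y : ℕ, c * Rec x ≤ Y ∧ (Y : ℝ) ≤ Real.log x ^ 2 ∧ ∀ H : Finset ℕ, H ⊆ Icc 1 Y →
  H.card = K → (∀ l : ℕ, l.Prime → ∃ a : ℕ, ∀ h ∈ H, ¬ h ≡ a [MOD l]) →
  ∃ N : Finset ℕ, (∀ n ∈ N, n ≤ x ∧ (∀ h ∈ Icc 1 Y, (n + h).Prime → h ∈ H) ∧
    k < (H.filter (fun h => (n + h).Prime)).card) ∧
  x * Real.exp (-(Real.log x / (16 * Real.log (Real.log x) ^ 2))) ≤ N.card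

/-- the lower bound for one `j` -/
theorem num4 {D Nj oK X o E T c3 η ε : ℝ} (hD : 0 ≤ D) (hN : 0 ≤ Nj) (ho : 0 ≤ oK)
    (hXo : 0 ≤ X * (o / E)) (hη0 : 0 ≤ η) (hη1 : η ≤ 1 / 4) (hη2 : η ≤ c3) (_hc3 : 0 ≤ c3)
    (hT : 4 * c3 * (X * (o / E)) ≤ T) :
    X * (2 * (c3 / E) * D * (oK * o) * Nj) - ε * X ≤
      D * Nj * oK * ((1 - η) * T - η * (X * (o / E))) - ε * X := by
  have h1 : 2 * c3 * (X * (o / E)) ≤ (1 - η) * T - η * (X * (o / E)) := by
    have h2 : (1 - η) * (4 * c3 * (X * (o / E))) ≤ (1 - η) * T :=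
      mul_le_mul_of_nonneg_left hT (by linarith)
    have h3 : 2 * c3 ≤ (1 - η) * (4 * c3) - η := by nlinarith only [hη2, hη0, hη1]
    have h4 : 2 * c3 * (X * (o / E)) ≤ ((1 - η) * (4 * c3) - η) * (X * (o / E)) :=
      mul_le_mul_of_nonneg_right h3 hXo
    linarith
  have h5 : D * Nj * oK * (2 * c3 * (X * (o / E))) ≤
      D * Nj * oK * ((1 - η) * T - η * (X * (o / E))) :=
    mul_le_mul_of_nonneg_left h1 (by positivity)
  have h6 : X * (2 * (c3 / E) * D * (oK * o) * Nj) = D * Nj * oK * (2 * c3 * (X * (o / E))) := by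
    ring
  rw [h6]
  linarith

/-- the final numerical inequality -/
theorem num5 {X D oK Nn S c3E ρ δ η ε εs εk K k : ℝ} (hX : 0 ≤ X) (hD : 1 ≤ D)
    (hoN : 0 ≤ oK * Nn) (hS : ρ * Nn ≤ c3E * S) (ho : 0 ≤ oK) (hδ : δ = 2 * ρ - k)
    (hδ0 : 0 ≤ δ) (hη : K * η ≤ δ / 4) (hK : 0 ≤ K) (hk : 0 ≤ k) (hεs : εs ≤ ε) (hεk : εk ≤ ε)
    (hε : (2 * K + k) * ε ≤ oK * Nn * (δ / 4)) :
    X * (oK * Nn * (δ / 2)) ≤
      (X * (2 * c3E * D * oK * S) - K * (ε * X)) - k * (X * (D * (oK * Nn) + εs)) -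
        K * (X * (η * (D * (oK * Nn)) + εk)) := by
  have h1 : D * oK * (ρ * Nn) ≤ D * oK * (c3E * S) :=
    mul_le_mul_of_nonneg_left hS (by positivity)
  have hDN : oK * Nn ≤ D * (oK * Nn) := le_mul_of_one_le_left hoN hD
  have h2 : k * εs ≤ k * ε := mul_le_mul_of_nonneg_left hεs hk
  have h3 : K * εk ≤ K * ε := mul_le_mul_of_nonneg_left hεk hK
  have h4 : K * η * (D * (oK * Nn)) ≤ δ / 4 * (D * (oK * Nn)) :=
    mul_le_mul_of_nonneg_right hη (hoN.trans hDN)
  have h5 : oK * Nn * δ ≤ D * (oK * Nn) * δ := mul_le_mul_of_nonneg_right hDN hδ0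
  have h6 : oK * Nn * (δ / 2) ≤ (2 * c3E * D * oK * S - K * ε) - k * (D * (oK * Nn) + εs) -
        K * (η * (D * (oK * Nn)) + εk) := by
    have h7 : 2 * (D * oK * (ρ * Nn)) - k * (D * (oK * Nn)) = D * (oK * Nn) * δ := by
      rw [hδ]
      ring
    nlinarith only [hε, h1, h2, h3, h4, h5, h7]
  calc X * (oK * Nn * (δ / 2)) ≤ X * ((2 * c3E * D * oK * S - K * ε) -
        k * (D * (oK * Nn) + εs) - K * (η * (D * (oK * Nn)) + εk)) :=
        mul_le_mul_of_nonneg_left h6 hX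
    _ = _ := by ring

theorem NH_nonneg (H : Finset ℕ) (T : Finset (H → ℕ)) (κ : (H → ℕ) → ℝ) : 0 ≤ NH H T κ :=
  sum_nonneg fun _ _ => mul_nonneg (sq_nonneg _) (prod_nonneg fun _ _ => Nat.cast_nonneg _)

theorem frm_core (hSV : StmtSV) (hKV : StmtKV) (hLVQ : StmtLVQ) (hVJ : StmtVJ) (hPMA : StmtPMA)
    (hPJ : Pool.Agent.Helper88.CR.StmtPJ) (hSUV : StmtSUV)
    (hOM : Pool.Agent.Helper88.CR.StmtOM) :
    ∃ c3 : ℝ, 0 < c3 ∧ ∀ CR : ℝ, 1 ≤ CR → ∃ c : ℝ, 0 < c ∧ ∀ K : ℕ, 1 ≤ K → ∀ (k : ℕ) (ρ : ℝ),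
      (k : ℝ) < 2 * ρ → MTH K ρ c3 → RCHH K CR → FRC K k c := by
  obtain ⟨c1, hc1, hc12, hKV⟩ := hKV
  obtain ⟨A0, hLVQ⟩ := hLVQ
  obtain ⟨A', hA', hPMA⟩ := hPMA
  obtain ⟨cJ, CJ, hcJ, hCJ, xJ, hPJ⟩ := hPJ
  obtain ⟨cO, hcO, hOM⟩ := hOM
  set A : ℕ := max A0 3 with hA
  have hA3 : 3 ≤ A := le_max_right _ _
  have hAA0 : A0 ≤ A := le_max_left _ _
  have hAR : (3 : ℝ) ≤ A := by exact_mod_cast hA3
  have hA'0 : 0 < A' := by linarith only [hc1, hc12, hA']
  have hAA' : 0 < A' * A := by positivity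
  set c3 : ℝ := min 1 (cJ / (A' * A)) / 4 with hc3
  have hc30 : 0 < c3 := by
    have : 0 < min 1 (cJ / (A' * A)) := lt_min one_pos (by positivity)
    positivity
  have hc3J : 4 * c3 ≤ cJ / (A' * A) := by
    have : min 1 (cJ / (A' * A)) ≤ cJ / (A' * A) := min_le_right _ _
    linarith only [hc3, this]
  refine ⟨c3, hc30, fun CR hCR => ?_⟩
  have hCR0 : 0 < CR := by linarith only [hc1, hc12, hCR]
  set c : ℝ := min 1 (c1 / (CR * (A' * A))) with hc
  have hc0 : 0 < c := lt_min one_pos (by positivity)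
  have hcle : c ≤ 1 := min_le_left _ _
  have hc2 : CR * (A' * A * c) ≤ c1 := by
    have h : c ≤ c1 / (CR * (A' * A)) := min_le_right _ _
    rw [le_div_iff₀ (by positivity)] at h
    linarith only [h]
  refine ⟨c, hc0, fun K hK k ρ hkρ hMT hRCH => ?_⟩
  obtain ⟨β, C, hC, EM, hMT⟩ := hMT
  obtain ⟨w0, hRCH⟩ := hRCH
  set δ : ℝ := 2 * ρ - k with hδ
  have hδ0 : 0 < δ := by linarith only [hkρ]
  have hKR : (1 : ℝ) ≤ K := by exact_mod_cast hK
  have hk0 : (0 : ℝ) ≤ k := Nat.cast_nonneg _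
  set η : ℝ := min (1 / 4) (min c3 (δ / (4 * K))) with hη
  have hη0 : 0 < η := lt_min (by norm_num) (lt_min hc30 (by positivity))
  have hη1 : η ≤ 1 / 4 := min_le_left _ _
  have hη2 : η ≤ c3 := (min_le_right _ _).trans (min_le_left _ _)
  have hη3 : K * η ≤ δ / 4 := by
    have h : η ≤ δ / (4 * K) := (min_le_right _ _).trans (min_le_right _ _)
    rw [le_div_iff₀ (by positivity)] at h
    linarith only [h]
  obtain ⟨cs, hcs, Es, hSV⟩ := hSV (A + 1) K 1 le_rfl
  obtain ⟨ck, hck, Ek, hKV⟩ := hKV (A + 1) K 1 η le_rfl hη0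
  obtain ⟨cl, hcl, El, hLVQ⟩ := hLVQ (A + 1) K C η hC hη0
  obtain ⟨Eu, hSUV⟩ := hSUV (A + 1) K 1 le_rfl
  set c4 : ℝ := min cs (min ck cl) with hc4
  have hc40 : 0 < c4 := lt_min hcs (lt_min hck hcl)
  obtain ⟨Ee, hEe⟩ := small_exp c4 hc40 K ((2 * K + k) * 4 / (δ * cO ^ K))
  obtain ⟨xP, hPMA⟩ := hPMA A (max CJ 64) c (Es + Ek + El + Eu + EM + Ee + 64) hA3
    (hCJ.trans (le_max_left _ _)) hc0 hcle
  obtain ⟨xS, hS3⟩ := size3 (3 * K + 1)
  obtain ⟨xL, hL⟩ := large 1 one_pos w0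
  obtain ⟨xT, hxT⟩ := eventually_atTop.1
    ((Real.tendsto_log_atTop.comp tendsto_natCast_atTop_atTop).eventually_ge_atTop
      (2 * K / (δ * cO ^ K) * 4 ^ K) : ∀ᶠ x : ℕ in atTop, _)
  refine ⟨xJ + xS + xP + xL + xT + 2, fun x hx => ?_⟩
  obtain ⟨l1, l2, l3, l4⟩ := hL x (by omega)
  have l5 : 2 * K / (δ * cO ^ K) * 4 ^ K ≤ Real.log x := hxT x (by omega)
  obtain ⟨E, z, w, y, Y, hE0, hSr, hyA, hyz, hYy, hYL, hwx, hwC', hpQ, hYw, hYw4, hRec, hom, ho2,
    hE4⟩ := hPMA x (by omega)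
  obtain ⟨s1, s2, s3, s4, s5, s6⟩ := id hSr
  set L := Real.log x with hLdef
  have hL0 : 0 < L := by linarith only [hη0, hη1, l1]
  have hlogL : 1 ≤ Real.log L := by
    have h9 : Real.exp 1 ≤ L := (Real.exp_one_lt_d9.le.trans (by norm_num)).trans l1
    calc (1 : ℝ) = Real.log (Real.exp 1) := (Real.log_exp 1).symm
      _ ≤ Real.log L := Real.log_le_log (Real.exp_pos 1) h9
  refine ⟨Y, hRec, hYL, fun H hHY hHK hAdm => ?_⟩
  have hw64 : 64 * (w * Real.log L ^ 2) ≤ L :=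
    (mul_le_mul_of_nonneg_right (le_max_right CJ 64) (by positivity)).trans hwC'
  have hwC : CJ * (w * Real.log L) ≤ L := by
    refine le_trans ?_ hwC'
    have h9 : (w : ℝ) * Real.log L ≤ w * Real.log L ^ 2 :=
      mul_le_mul_of_nonneg_left (by nlinarith only [hlogL]) (Nat.cast_nonneg _)
    exact mul_le_mul (le_max_left _ _) h9 (by positivity)
      ((by linarith only [hCJ, hη0, hη1] : (0 : ℝ) ≤ CJ).trans (le_max_left _ _))
  have hw0 : w0 ≤ w := by exact_mod_cast l4.trans hwx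
  have hsq1 : 1 < √L := by
    rw [Real.lt_sqrt (by norm_num)]
    linarith only [hη0, hη1, l1]
  have hw1 : (1 : ℝ) < w := lt_of_lt_of_le hsq1 hwx
  have hwL : (w : ℝ) ≤ L := by
    have h9 : (w : ℝ) ≤ w * Real.log L := le_mul_of_one_le_right (by linarith only [hη0, hη1, hwx, hsq1]) hlogL
    have h10 : (w : ℝ) * Real.log L ≤ CJ * (w * Real.log L) :=
      le_mul_of_one_le_left (by positivity) hCJ
    linarith only [hwC, h9, h10]
  obtain ⟨p, hp, hpw, h6⟩ := hPJ x w (by omega) hwx hwC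
  obtain ⟨b, hb, hbH, hcard⟩ := hRCH w p Y hw0 hp hpw hYw hYw4 H hHY hHK hAdm
  set q := primorial w / p with hq
  have hpd : p ∣ primorial w := hp.dvd_primorial_iff.2 hpw
  have hqd : q ∣ primorial w := Nat.div_dvd_of_dvd hpd
  have hq0 : 0 < q := Nat.div_pos (Nat.le_of_dvd (primorial_pos w) hpd) hp.pos
  have hqQ : q ∣ QQ x := hqd.trans hpQ
  -- sizes of `E`, `z`, `om`
  have hE64 : 64 ≤ E := by omega
  have hER : (64 : ℝ) ≤ E := by exact_mod_cast hE64
  have hExpE : (E : ℝ) + 1 ≤ Real.exp E := Real.add_one_le_exp _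
  have hEz : E ≤ z := by
    have h11 : (E : ℝ) ≤ z := by linarith only [hη0, hη1, s1, hExpE]
    exact_mod_cast h11
  have hz2 : 2 ≤ z := by omega
  have hzx : z ≤ x := (Nat.le_self_pow (by omega) z).trans s2
  have hz1 : (1 : ℝ) < z := by exact_mod_cast (by omega : 1 < z)
  have hy3 : (3 : ℝ) ≤ y := l1.trans s4
  have hy2 : 2 ≤ y := by
    have : (2 : ℝ) ≤ y := by linarith only [hη0, hη1, l1, s4]
    exact_mod_cast this
  set o := om y z with ho
  have hoL : cO / L ≤ o := by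
    refine le_trans ?_ (hOM y z hy2 hyz)
    have h1 : 1 ≤ Real.log y := by
      have h9 : Real.exp 1 ≤ y := (Real.exp_one_lt_d9.le.trans (by norm_num)).trans hy3
      calc (1 : ℝ) = Real.log (Real.exp 1) := (Real.log_exp 1).symm
        _ ≤ Real.log y := Real.log_le_log (Real.exp_pos 1) h9
    have h2 : Real.log z ≤ L := Real.log_le_log (by linarith only [hη0, hη1, s1, hER, hExpE]) (by exact_mod_cast hzx)
    have h3 : 0 < Real.log z := Real.log_pos hz1
    rw [div_eq_mul_one_div]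
    exact mul_le_mul_of_nonneg_left (div_le_div₀ (by linarith only [hη0, hη1, h1]) h1 h3 h2) hcO.le
  have ho0 : 0 < o := lt_of_lt_of_le (by positivity) hoL
  -- the points
  set P := (Icc 1 Y).filter (fun h => Nat.Coprime (b + h) q ∧ h ∉ H) with hP
  have hYyI : Icc 1 Y ⊆ Icc 1 y := Icc_subset_Icc_right hYy
  have hPy : P ⊆ Icc 1 y := (filter_subset _ _).trans hYyI
  have hHy : H ⊆ Icc 1 y := hHY.trans hYyI
  have hPH : Disjoint P H := by
    rw [disjoint_left]
    intro h hh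
    exact (mem_filter.1 hh).2.2
  have hElog : 0 ≤ (E : ℝ) * Real.log E :=
    mul_nonneg (Nat.cast_nonneg _) (Real.log_nonneg (by linarith only [hη0, hη1, hER]))
  have hPc : (P.card : ℝ) * o ≤ c1 * (E * Real.log E) := by
    have h9 : (P.card : ℝ) ≤ CR * (Y * Real.log (Real.log w) ^ 2 /
        (Real.log w ^ 2 * Real.log (Real.log (Real.log w)))) := by
      refine le_trans ?_ hcard
      exact_mod_cast card_le_card (fun h hh => by
        rw [hP, mem_filter] at hh
        exact mem_filter.2 ⟨hh.1, hh.2.1⟩)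
    calc (P.card : ℝ) * o
        ≤ CR * (Y * Real.log (Real.log w) ^ 2 /
        (Real.log w ^ 2 * Real.log (Real.log (Real.log w)))) * o :=
          mul_le_mul_of_nonneg_right h9 ho0.le
      _ = CR * (Y * Real.log (Real.log w) ^ 2 /
        (Real.log w ^ 2 * Real.log (Real.log (Real.log w))) * o) := by ring
      _ ≤ CR * (A' * A * c * (E * Real.log E)) := mul_le_mul_of_nonneg_left hom hCR0.le
      _ = CR * (A' * A * c) * (E * Real.log E) := by ring
      _ ≤ c1 * (E * Real.log E) := mul_le_mul_of_nonneg_right hc2 hElog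
  have hlogE : Real.log E ≤ E := by
    have := Real.log_le_sub_one_of_pos (show (0 : ℝ) < E by linarith only [hη0, hη1, hER])
    linarith only [hη0, hη1, this]
  have hPE : (P.card : ℝ) * o ≤ (E : ℝ) ^ 2 / 2 := by
    have h10 : (E : ℝ) * Real.log E ≤ E * E := mul_le_mul_of_nonneg_left hlogE (by linarith only [hη0, hη1, hER])
    have h11 : c1 * (E * Real.log E) ≤ 1 / 2 * (E * Real.log E) :=
      mul_le_mul_of_nonneg_right hc12 hElog
    have h12 : (E : ℝ) ^ 2 = E * E := sq (E : ℝ)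
    rw [h12]
    linarith only [hPc, h10, h11]
  set X := XI (x / 32) x q with hX
  have hX0 : 0 < X := by
    rw [hX, XI]
    have : 0 < x - x / 32 := by omega
    positivity
  have hIn : In x (x / 32) x q b := ⟨hqQ, hb, by omega⟩
  -- Maynard's sums
  obtain ⟨hAd1, hAdj, hNlow, hratio⟩ := hMT E z (by omega) hEz H hHK
  set T := TH E z H with hT
  set κ := kH E z β H with hκ
  set Nn := NH H T κ with hNn
  set D := D1 E z y P with hD
  obtain ⟨hD1, hS⟩ := hSV E z x y (by omega) hSr (x / 32) x q b hIn P H hPy hHy hPH (by omega) hPE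
    T κ hAd1
  have hKl := hKV E z x y (by omega) hSr q b hqQ hb P H hPy hHy hPH (by omega) hPc T κ hAd1
  rw [hHK] at hS hKl
  have hE2K : 0 < (2 * (E : ℝ)) ^ (2 * K) := by positivity
  have hNn0 : 0 < Nn := lt_of_lt_of_le (by positivity) hNlow
  set oK := o ^ K with hoK
  have hoK0 : 0 < oK := by positivity
  -- lower bound for `oK * Nn`
  have hoKL : cO ^ K * Real.exp (-(K * Real.log L)) ≤ oK := by
    have h1 : (cO / L) ^ K ≤ o ^ K := pow_le_pow_left₀ (by positivity) hoL K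
    have h2 : (cO / L) ^ K = cO ^ K * Real.exp (-(K * Real.log L)) := by
      rw [Real.exp_neg, Real.exp_nat_mul, Real.exp_log hL0, div_pow]
      rfl
    rw [← h2]
    exact h1
  have hoN : cO ^ K * Real.exp (-(K * Real.log L)) / (2 * (E : ℝ)) ^ (2 * K) ≤ oK * Nn := by
    calc cO ^ K * Real.exp (-(K * Real.log L)) / (2 * (E : ℝ)) ^ (2 * K)
        = cO ^ K * Real.exp (-(K * Real.log L)) * (1 / (2 * (E : ℝ)) ^ (2 * K)) := by ring
      _ ≤ oK * Nn := mul_le_mul hoKL hNlow (by positivity) hoK0.le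
  set ε := Real.exp (-(c4 * E)) with hε
  have hEn : (0 : ℝ) ≤ E := Nat.cast_nonneg _
  have hεs : Real.exp (-(cs * E)) ≤ ε := by
    apply Real.exp_le_exp.2
    have : c4 * E ≤ cs * E := mul_le_mul_of_nonneg_right (min_le_left _ _) hEn
    linarith only [this]
  have hεk : Real.exp (-(ck * E)) ≤ ε := by
    apply Real.exp_le_exp.2
    have : c4 * E ≤ ck * E :=
      mul_le_mul_of_nonneg_right ((min_le_right _ _).trans (min_le_left _ _)) hEn
    linarith only [this]
  have hεl : Real.exp (-(cl * E)) ≤ ε := by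
    apply Real.exp_le_exp.2
    have : c4 * E ≤ cl * E :=
      mul_le_mul_of_nonneg_right ((min_le_right _ _).trans (min_le_right _ _)) hEn
    linarith only [this]
  have hεsm : (2 * K + k) * ε ≤ oK * Nn * (δ / 4) := by
    have h1 := hEe E (by omega) (Real.log L) (by linarith only [hη0, hη1, hlogL]) s6
    have h2 : ε = 1 / Real.exp (c4 * E) := by rw [hε, Real.exp_neg, one_div]
    have h3 : (2 * K + k) * ε ≤
        cO ^ K * Real.exp (-(K * Real.log L)) / (2 * (E : ℝ)) ^ (2 * K) * (δ / 4) := by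
      rw [h2, Real.exp_neg, mul_one_div, div_le_iff₀ (Real.exp_pos _)]
      have h4 : cO ^ K * (Real.exp (K * Real.log L))⁻¹ / (2 * (E : ℝ)) ^ (2 * K) * (δ / 4) *
          ((2 * K + k) * 4 / (δ * cO ^ K) * Real.exp (K * Real.log L) *
            (2 * (E : ℝ)) ^ (2 * K)) = 2 * K + k := by
        have h5 : Real.exp (K * Real.log L) ≠ 0 := (Real.exp_pos _).ne'
        field_simp
      calc (2 * K + k : ℝ) = _ := h4.symm
        _ ≤ _ := mul_le_mul_of_nonneg_left h1 (by positivity)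
    exact h3.trans (mul_le_mul_of_nonneg_right hoN (by positivity))
  -- the size of the labels
  have hzz : z ^ (E / 32) ≤ x / 32 := by
    rw [Nat.le_div_iff_mul_le (by norm_num)]
    have h1 : 32 ≤ z ^ (E / 32) := by
      calc 32 ≤ z := by omega
        _ ≤ z ^ (E / 32) := Nat.le_self_pow (by omega) z
    calc z ^ (E / 32) * 32 ≤ z ^ (E / 32) * z ^ (E / 32) := Nat.mul_le_mul_left _ h1
      _ = z ^ (E / 32 + E / 32) := (pow_add _ _ _).symm
      _ ≤ z ^ E := Nat.pow_le_pow_right (by omega) (by omega)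
      _ ≤ x := s2
  have hz32 : z ≤ x / 32 := (Nat.le_self_pow (by omega) z).trans hzz
  set S := NI (x / 32) x q b with hSdef
  have hSmem : ∀ n ∈ S, x / 32 < n ∧ n ≤ x ∧ n % q = b := by
    intro n hn
    have hnI : n ∈ (Ioc (x / 32) x).filter (fun n => n % q = b) := hn
    obtain ⟨h1, h2⟩ := mem_filter.1 hnI
    exact ⟨(mem_Ioc.1 h1).1, (mem_Ioc.1 h1).2, h2⟩
  -- the lower bounds
  have hlow : ∀ j ∈ H, X * (2 * (c3 / E) * D * (oK) *
        NH (H.erase j) (Tj H j T) (kj H j T κ)) - ε * X ≤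
      ∑ n ∈ S, pw x (n + j) * (W1 E z y P n ^ 2 * VH y z H T κ n ^ 2) := by
    intro j hj
    have hjy := hHy hj
    have hjP : j ∉ P := fun h => (disjoint_left.1 hPH h) hj
    have hcardj : (H.erase j).card = K - 1 := by rw [card_erase_of_mem hj, hHK]
    have hPHj : Disjoint P (H.erase j) := hPH.mono_right (erase_subset _ _)
    have h1 := hLVQ E z x y (by omega) hSr
      ((pow_le_pow_right₀ (by linarith only [hη0, hη1, l1]) hAA0).trans hyA) q b hqQ hb P (H.erase j) hPy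
      ((erase_subset _ _).trans hHy) hPHj (by omega) hPE j hjy hjP (notMem_erase j H)
      (Tj H j T) (kj H j T κ) (hAdj j hj)
    rw [hcardj] at h1
    have h2 : ∑ n ∈ S, pw x (n + j) *
          (W1 E z y P n ^ 2 * VH y z (H.erase j) (Tj H j T) (kj H j T κ) n ^ 2) =
        ∑ n ∈ S, pw x (n + j) * (W1 E z y P n ^ 2 * VH y z H T κ n ^ 2) := by
      refine sum_congr rfl fun n hn => ?_
      by_cases hpr : (n + j).Prime
      · rw [← hVJ y z H j n T κ hj hpr ?_ ?_]
        · have := (hSmem n hn).1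
          omega
        · intro s hs i
          have h3 := hAd1.1 s hs i
          rw [SS, mem_filter, mem_Ico] at h3
          have := (hSmem n hn).1
          exact ⟨h3.2, by omega⟩
      · have h3 : pw x (n + j) = 0 := by rw [pw, if_neg hpr]
        rw [h3, zero_mul, zero_mul]
    rw [h2] at h1
    refine le_trans ?_ h1
    have h3 : 4 * c3 * (X * (o / E)) ≤ ∑ n ∈ S, pw x (n + j) := by
      have h4 : (j : ℝ) ≤ L ^ 3 := by
        have h5 : (j : ℝ) ≤ Y := by exact_mod_cast (mem_Icc.1 (hHY hj)).2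
        exact (h5.trans hYL).trans (pow_le_pow_right₀ (by linarith only [hη0, hη1, l1]) (by norm_num))
      refine le_trans ?_ (h6 b j hb h4 (hbH j hj))
      have h7 : o / E ≤ A' * A * (Real.log w / L) := by
        calc o / E ≤ A' * A * Real.log w / L := ho2
          _ = _ := by ring
      have h8 : 0 < Real.log w := Real.log_pos hw1
      calc 4 * c3 * (X * (o / E)) ≤ cJ / (A' * A) * (X * (o / E)) :=
            mul_le_mul_of_nonneg_right hc3J (by positivity)
        _ ≤ cJ / (A' * A) * (X * (A' * A * (Real.log w / L))) := by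
            refine mul_le_mul_of_nonneg_left ?_ (by positivity)
            exact mul_le_mul_of_nonneg_left h7 hX0.le
        _ = cJ * (X * (Real.log w / L)) := by field_simp
    have h9 := num4 (D := D) (Nj := NH (H.erase j) (Tj H j T) (kj H j T κ)) (oK := o ^ (K - 1))
      (X := X) (o := o) (E := E) (c3 := c3) (η := η) (ε := ε) (by linarith only [hη0, hη1, hD1])
      (NH_nonneg _ _ _) (by positivity) (by positivity) hη0.le hη1 hη2 hc30.le h3
    have h10 : o ^ (K - 1) * o = oK := by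
      rw [hoK, ← pow_succ]
      congr 1
      omega
    rw [h10] at h9
    refine h9.trans ?_
    have h11 : Real.exp (-(cl * E)) * X ≤ ε * X := mul_le_mul_of_nonneg_right hεl hX0.le
    linarith only [h11]
  -- the counting
  have hB : ∀ n ∈ S, W1 E z y P n ^ 2 * VH y z H T κ n ^ 2 ≤ Real.exp ((E : ℝ) ^ 2) := by
    intro n hn
    exact hSUV E z x y (by omega) hSr P H hPy hHy (by omega) T κ hAd1 n (hSmem n hn).2.1
  have hx2 : 2 ≤ x := by omega
  obtain ⟨N, hNS, hN1, hN2⟩ := window3 (S := S)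
    (W := fun n => W1 E z y P n ^ 2 * VH y z H T κ n ^ 2)
    (fun n => by positivity) (f := fun n j => pw x (n + j))
    (fun n j => pw_le x (n + j) hx2) (P := P) (H := H) (k := k) (K := K) hHK
    (A := fun j => X * (2 * (c3 / E) * D * (oK) *
        NH (H.erase j) (Tj H j T) (kj H j T κ)) - ε * X)
    (A₃ := X * (D * (oK * Nn) + Real.exp (-(cs * E))))
    (A₄ := X * (η * (D * (oK * Nn)) + Real.exp (-(ck * E))))
    (B := Real.exp ((E : ℝ) ^ 2)) (e := X * (oK * Nn * (δ / 2))) hB hlow hS hKl (by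
      have h1 := num5 (X := X) (D := D) (oK := oK) (Nn := Nn)
        (S := ∑ j ∈ H, NH (H.erase j) (Tj H j T) (kj H j T κ)) (c3E := c3 / E) (ρ := ρ) (δ := δ)
        (η := η) (ε := ε) (εs := Real.exp (-(cs * E))) (εk := Real.exp (-(ck * E)))
        (K := K) (k := k) hX0.le hD1 (by positivity) hratio hoK0.le hδ hδ0.le hη3 (by positivity)
        hk0 hεs hεk hεsm
      refine h1.trans (le_of_eq ?_)
      congr 1
      congr 1
      rw [sum_sub_distrib, sum_const, hHK, nsmul_eq_mul, ← mul_sum, ← mul_sum])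
  have hx32 : w + 2 ≤ x / 32 := by
    have h9 : ((32 * (w + 2) : ℕ) : ℝ) ≤ x := by
      push_cast
      linarith only [hη0, hη1, l1, l3, hwL]
    have h10 : 32 * (w + 2) ≤ x := by exact_mod_cast h9
    omega
  have hcop : ∀ n ∈ N, ∀ j, (n + j).Prime → Nat.Coprime (b + j) q := by
    intro n hn j hj
    obtain ⟨hn5, hn6, hn4⟩ := hSmem n (hNS hn)
    rw [← coprime_iff hn4 hb]
    rw [Nat.Prime.coprime_iff_not_dvd hj]
    intro h9
    have h10 := hj.dvd_primorial_iff.1 (h9.trans hqd)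
    omega
  refine ⟨N, fun n hn => ⟨(hSmem n (hNS hn)).2.1, ?_, (hN1 n hn).2⟩, ?_⟩
  · intro h hh hpr
    by_contra hcon
    exact (hN1 n hn).1 h (by
      rw [hP, mem_filter]
      exact ⟨hh, hcop n hn h hpr, hcon⟩) hpr
  · have h9 := hS3 x w E q (by omega) hw64 hE4 hq0 (Nat.le_of_dvd (primorial_pos w) hqd)
    -- `K * (2/δ) ≤ exp((3K+1) log L) * oK * Nn`
    have hEL : (E : ℝ) ≤ L := by
      have h1 : (E : ℝ) ≤ (E : ℝ) ^ 4 := le_self_pow₀ (by linarith only [hη0, hη1, hER]) (by norm_num)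
      linarith only [hE4, h1]
    have h10 : (2 * (E : ℝ)) ^ (2 * K) ≤ 4 ^ K * Real.exp (2 * K * Real.log L) := by
      calc (2 * (E : ℝ)) ^ (2 * K) ≤ (2 * L) ^ (2 * K) :=
            pow_le_pow_left₀ (by positivity) (by linarith only [hEL]) _
        _ = 4 ^ K * L ^ (2 * K) := by
            rw [mul_pow, pow_mul]
            norm_num
        _ = 4 ^ K * Real.exp (2 * K * Real.log L) := by
            congr 1
            have h11 : (2 : ℝ) * K * Real.log L = ((2 * K : ℕ) : ℝ) * Real.log L := by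
              push_cast
              ring
            rw [h11, Real.exp_nat_mul, Real.exp_log hL0]
    have h12 : 2 * K / δ ≤ Real.exp ((3 * K + 1) * Real.log L) * (oK * Nn) := by
      have h13 : 2 * K / δ * (4 ^ K / cO ^ K) ≤ L := by
        calc 2 * K / δ * (4 ^ K / cO ^ K) = 2 * K / (δ * cO ^ K) * 4 ^ K := by
              field_simp
          _ ≤ L := l5
      have h14 : Real.exp ((3 * K + 1) * Real.log L) =
          L * Real.exp (K * Real.log L) * Real.exp (2 * K * Real.log L) := by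
        have h15 : ((3 * K + 1) * Real.log L : ℝ) =
          Real.log L + K * Real.log L + 2 * K * Real.log L := by ring
        rw [h15, Real.exp_add, Real.exp_add, Real.exp_log hL0]
      calc 2 * K / δ = 2 * K / δ * (4 ^ K / cO ^ K) * Real.exp (K * Real.log L) *
            Real.exp (2 * K * Real.log L) *
            (cO ^ K * Real.exp (-(K * Real.log L)) /
              (4 ^ K * Real.exp (2 * K * Real.log L))) := by
            rw [Real.exp_neg]
            have h16 : Real.exp (K * Real.log L) ≠ 0 := (Real.exp_pos _).ne'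
            have h17 : Real.exp (2 * K * Real.log L) ≠ 0 := (Real.exp_pos _).ne'
            have h18 : cO ^ K ≠ 0 := by positivity
            field_simp
        _ ≤ L * Real.exp (K * Real.log L) * Real.exp (2 * K * Real.log L) *
            (cO ^ K * Real.exp (-(K * Real.log L)) /
              (4 ^ K * Real.exp (2 * K * Real.log L))) := by
            refine mul_le_mul_of_nonneg_right ?_ (by positivity)
            refine mul_le_mul_of_nonneg_right ?_ (by positivity)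
            exact mul_le_mul_of_nonneg_right h13 (by positivity)
        _ ≤ L * Real.exp (K * Real.log L) * Real.exp (2 * K * Real.log L) *
            (cO ^ K * Real.exp (-(K * Real.log L)) / (2 * (E : ℝ)) ^ (2 * K)) := by
            refine mul_le_mul_of_nonneg_left ?_ (by positivity)
            exact div_le_div_of_nonneg_left (by positivity) hE2K h10
        _ ≤ L * Real.exp (K * Real.log L) * Real.exp (2 * K * Real.log L) * (oK * Nn) :=
            mul_le_mul_of_nonneg_left hoN (by positivity)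
        _ = _ := by rw [h14]
    set xe := x * Real.exp (-(L / (16 * Real.log L ^ 2))) with hxe
    have hxe0 : 0 ≤ xe := by positivity
    have hEE : 0 < Real.exp ((E : ℝ) ^ 2) := Real.exp_pos _
    have h19 : K * Real.exp ((E : ℝ) ^ 2) * xe ≤ K * Real.exp ((E : ℝ) ^ 2) * N.card := by
      calc K * Real.exp ((E : ℝ) ^ 2) * xe
          = 2 * K / δ * (Real.exp ((E : ℝ) ^ 2) * xe) * (δ / 2) := by field_simp
        _ ≤ Real.exp ((3 * K + 1) * Real.log L) * (oK * Nn) *
            (Real.exp ((E : ℝ) ^ 2) * xe) * (δ / 2) := by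
            refine mul_le_mul_of_nonneg_right ?_ (by positivity)
            exact mul_le_mul_of_nonneg_right h12 (by positivity)
        _ = Real.exp ((3 * K + 1) * Real.log L) * Real.exp ((E : ℝ) ^ 2) * xe *
            (oK * Nn * (δ / 2)) := by ring
        _ ≤ X * (oK * Nn * (δ / 2)) := mul_le_mul_of_nonneg_right h9 (by positivity)
        _ ≤ _ := hN2
    exact le_of_mul_le_mul_left h19 (by positivity)

theorem frm (hSV : StmtSV) (hKV : StmtKV) (hLVQ : StmtLVQ) (hVJ : StmtVJ) (hMT : StmtMT)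
    (hRCH : StmtRCH) (hPMA : StmtPMA) (hPJ : Pool.Agent.Helper88.CR.StmtPJ) (hSUV : StmtSUV)
    (hOM : Pool.Agent.Helper88.CR.StmtOM) : StmtFRM := by
  intro k
  obtain ⟨c3, hc3, h⟩ := frm_core hSV hKV hLVQ hVJ hPMA hPJ hSUV hOM
  obtain ⟨K, β, C, hK, hC, E0, hMT⟩ := hMT c3 (k + 1) hc3
  obtain ⟨CR, hCR, hRCH⟩ := hRCH K hK
  obtain ⟨c, hc, h⟩ := h CR hCR
  refine ⟨K, c, hc, h K hK k (k + 1) (by
    have : (0 : ℝ) ≤ k := Nat.cast_nonneg _
    linarith) ⟨β, C, hC, E0, fun E z hE hz H hH => ?_⟩ hRCH⟩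
  obtain ⟨h1, h2, h3, h4⟩ := hMT E z hE hz H hH
  refine ⟨h1, h2, h3, ?_⟩
  push_cast at h4
  exact h4

end Pool.Agent.Helper23.MC
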