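import Pool.Agent.Helper23.MC.FRM
import Pool.Agent.Helper57.MT.Goals

/-! # Project MC2: the windows, with absolute constants -/

set_option autoImplicit false

open Finset Filter Topology

open scoped Classical

namespace Pool.Agent.Helper23.MC

open Pool.Agent.Helper88.CR (Rec)
open Pool.Agent.Helper57.MT (StmtMT2 StmtRCH2 StmtFRM2)

theorem rec_nonneg : ∃ x0 : ℕ, ∀ x : ℕ, x0 ≤ x → 0 ≤ Rec x := by
  have t1 : Tendsto (fun x : ℕ => Real.log (x : ℝ)) atTop atTop :=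
    Real.tendsto_log_atTop.comp tendsto_natCast_atTop_atTop
  have t2 := Real.tendsto_log_atTop.comp t1
  have t3 := Real.tendsto_log_atTop.comp t2
  have t4 := Real.tendsto_log_atTop.comp t3
  obtain ⟨x0, h⟩ := eventually_atTop.1 ((t1.eventually_ge_atTop 0).and
    (t4.eventually_ge_atTop 0))
  refine ⟨x0, fun x hx => ?_⟩
  obtain ⟨h1, h2⟩ := h x hx
  simp only [Function.comp_apply] at h2
  unfold Rec
  exact div_nonneg (mul_nonneg (mul_nonneg h1 (sq_nonneg _)) h2) (sq_nonneg _)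

theorem frm2 (hSV : StmtSV) (hKV : StmtKV) (hLVQ : StmtLVQ) (hVJ : StmtVJ) (hPMA : StmtPMA)
    (hPJ : Pool.Agent.Helper88.CR.StmtPJ) (hSUV : StmtSUV)
    (hOM : Pool.Agent.Helper88.CR.StmtOM) (hMT : StmtMT2) (hRCH : StmtRCH2) : StmtFRM2 := by
  obtain ⟨c3, hc3, h⟩ := frm_core hSV hKV hLVQ hVJ hPMA hPJ hSUV hOM
  obtain ⟨c5, hc5, hMT⟩ := hMT c3 hc3
  obtain ⟨CR, hCR, hRCH⟩ := hRCH
  obtain ⟨c0, hc0, h⟩ := h CR hCR
  obtain ⟨x1, hx1⟩ := rec_nonneg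
  refine ⟨min c0 c5, lt_min hc0 hc5, fun K hK => ?_⟩
  have hKR : (1 : ℝ) ≤ K := by exact_mod_cast hK
  have hlK : 0 ≤ Real.log K := Real.log_nonneg hKR
  have hlK2 : 0 < Real.log (K + 2) := Real.log_pos (by linarith)
  have hle : Real.log K ≤ Real.log (K + 2) := Real.log_le_log (by linarith) (by linarith)
  obtain ⟨x0, hx0⟩ := h K hK ⌊c5 * Real.log K⌋₊ (c5 * Real.log (K + 2)) (by
    have h1 : (⌊c5 * Real.log K⌋₊ : ℝ) ≤ c5 * Real.log K := Nat.floor_le (by positivity)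
    have h2 : c5 * Real.log K ≤ c5 * Real.log (K + 2) := mul_le_mul_of_nonneg_left hle hc5.le
    have h3 : 0 < c5 * Real.log (K + 2) := by positivity
    linarith) (hMT K hK) (hRCH K hK)
  refine ⟨x0 + x1, fun x hx => ?_⟩
  obtain ⟨Y, hY1, hY2, hY3⟩ := hx0 x (by omega)
  refine ⟨Y, (mul_le_mul_of_nonneg_right (min_le_left _ _) (hx1 x (by omega))).trans hY1, hY2,
    fun H hH1 hH2 hH3 => ?_⟩
  obtain ⟨N, hN1, hN2⟩ := hY3 H hH1 hH2 hH3
  refine ⟨N, fun n hn => ⟨(hN1 n hn).1, (hN1 n hn).2.1, ?_⟩, hN2⟩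
  have h4 := (hN1 n hn).2.2
  have h5 : c5 * Real.log K < (⌊c5 * Real.log K⌋₊ : ℝ) + 1 := Nat.lt_floor_add_one _
  have h6 : ((⌊c5 * Real.log K⌋₊ + 1 : ℕ) : ℝ) ≤
      ((H.filter (fun h => (n + h).Prime)).card : ℝ) := by exact_mod_cast h4
  push_cast at h6
  have h7 : min c0 c5 * Real.log K ≤ c5 * Real.log K :=
    mul_le_mul_of_nonneg_right (min_le_right _ _) hlK
  linarith

end Pool.Agent.Helper23.MC
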