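import Pool.Agent.Helper23.MC.Goals2

/-!
# Prescribed clusters of primes in deserts of record size: statements, part 3
(Maynard's sums, the class, the parameters, the conclusion)
-/

set_option autoImplicit false

open Finset Filter Topology

open scoped Classical

namespace Pool.Agent.Helper23.MC

open Pool.Agent.Helper88.PP (pr Rg om Sf SS uu vv ee LA VV QQ cost)
open Pool.Agent.Helper88.RR (gg ab TB WB nz wb DB Db VM)
open Pool.Agent.Helper88.GM (NI XI gB In)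
open Pool.Agent.Helper88.CG (tw pw th ic DS sg CN qE mE)
open Pool.Agent.Helper88.CR (Rec)

/-! ## The Maynard weight -/

/-- the label functions on `H` -/
noncomputable def TH (E z : ℕ) (H : Finset ℕ) : Finset (H → ℕ) :=
  (Fintype.piFinset (fun _ : H => SS z (z ^ (E / 64)))).filter
    (fun s => ∑ i, ee z (s i) ≤ E / 32)

/-- the coefficients -/
noncomputable def kH (E z β : ℕ) (H : Finset ℕ) (s : H → ℕ) : ℝ :=
  ∏ i : H, 1 / ((Nat.totient (s i) : ℝ) * (E + β * ee z (s i)))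

/-- restriction to `H.erase j` -/
def rs (H : Finset ℕ) (j : ℕ) (s : H → ℕ) : ↥(H.erase j) → ℕ :=
  fun i => s ⟨i, mem_of_mem_erase i.2⟩

/-- the restricted label functions -/
noncomputable def Tj (H : Finset ℕ) (j : ℕ) (T : Finset (H → ℕ)) :
    Finset (↥(H.erase j) → ℕ) := T.image (rs H j)

/-- the coefficients, summed over the label at `j` -/
noncomputable def kj (H : Finset ℕ) (j : ℕ) (T : Finset (H → ℕ)) (κ : (H → ℕ) → ℝ)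
    (s : ↥(H.erase j) → ℕ) : ℝ := ∑ t ∈ T.filter (fun t => rs H j t = s), κ t

/-- At a prime `n + j` the label at `j` disappears.
Proof.  `vv y z (s j) (n + j) = 1`: `n + j` is a prime larger than `z` and than the prime factors of
`s j`.  Split the product over `H` into `i = j` and `H.erase j`, and the sum over `T` according to
the restriction. -/
def StmtVJ : Prop := ∀ (y z : ℕ) (H : Finset ℕ) (j n : ℕ) (T : Finset (H → ℕ))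
  (κ : (H → ℕ) → ℝ), j ∈ H → (n + j).Prime → z < n + j →
  (∀ s ∈ T, ∀ i, Sf z (s i) ∧ s i < n + j) →
  VH y z H T κ n = VH y z (H.erase j) (Tj H j T) (kj H j T κ) n

/-- Sums over rough numbers.  `I1 = ∑ 1/(φ(s)(E + β ee))`, `I2 = ∑ 1/(φ(s)(E + β ee)²)`,
`J = ∑ ee/(φ(s)(E + β ee)²)`, over `s ∈ SS z (z^(E/64))`.
Proof.  Let `Φ(m) = ∑_{s ∈ SS z (z^m)} 1/φ(s)`, `Φ(0) = 0`, `c m ≤ Φ(m) ≤ C m` for `m ≥ 1`
(`PP.StmtMA`, `Pool.Agent.Helper24.PP.ma`).  `ee z s = e` iff `z^(e-1) ≤ s < z^e`.  Abel summation: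
`∑_s F(ee s)/φ(s) = ∑_{e ≤ M} (Φ(e) - Φ(e-1)) F(e) = Φ(M) F(M) + ∑_{e < M} Φ(e) (F(e) - F(e+1))`,
`M = E/64`; for decreasing `F ≥ 0` it is between `c ∑_{e ≤ M} F(e)` and `C ∑_{e ≤ M} F(e)`.
`∑_{e ≤ M} 1/(E + β e) ≥ (1/β) log((E + β(M+1))/(E + β)) ≥ (1/β) log(β/130)` (`β ≤ E`,
`M + 1 ≥ E/64`) and `≤ (1/β) log(1 + β M/E) ≤ (1/β) log(1 + β)`;
`∑ 1/(E + βe)² ≤ 1/(βE)`; `J ≤ I1/β`. -/
def StmtIJ : Prop := ∃ c C : ℝ, 0 < c ∧ 1 ≤ C ∧ ∀ E z β : ℕ, 64 ≤ E → 2 ≤ z → 200 ≤ β → β ≤ E →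
  c / β * Real.log (β / 130) ≤ ∑ s ∈ SS z (z ^ (E / 64)),
      1 / ((Nat.totient s : ℝ) * (E + β * ee z s)) ∧
  ∑ s ∈ SS z (z ^ (E / 64)), 1 / ((Nat.totient s : ℝ) * (E + β * ee z s))
    ≤ C / β * Real.log (1 + β) ∧
  ∑ s ∈ SS z (z ^ (E / 64)), 1 / ((Nat.totient s : ℝ) * (E + β * ee z s) ^ 2) ≤ C / (β * E) ∧
  c / (β * E) ≤ ∑ s ∈ SS z (z ^ (E / 64)), 1 / ((Nat.totient s : ℝ) * (E + β * ee z s) ^ 2) ∧
  ∑ s ∈ SS z (z ^ (E / 64)), (ee z s : ℝ) / ((Nat.totient s : ℝ) * (E + β * ee z s) ^ 2)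
    ≤ C / β ^ 2 * Real.log (1 + β)

/-- MAYNARD'S LOWER BOUND.
Proof.  `K` large in terms of `c3, k`, `β = ⌈C₁ K log K⌉`, notation as in `StmtIJ`.
`Ad 1`: `E + β ee ≥ E`, `s < z^(ee z s)`.  `Ad C` for the restriction: the sum over the label at `j`
is at most `I1 ≤ C`.  Lower bound for `NH`: the term `s = (1, .., 1)` (`ee z 1 = 1`), which is
`(E + β)^(-2K)`.
`NH H = ∑_{cost ≤ E/32} ∏ 1/(φ (E + β ee)²) ≤ I2^K`.
`NH (H.erase j)`: for `s'` of cost `≤ E/32 - E/64` on `H.erase j` every label of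
`SS z (z^(E/64))` (cost `≤ E/64`) is allowed at `j`, so `kj s' = I1 ∏_{i ≠ j} 1/(φ (E + β ee))`, and
`NH (H.erase j) ≥ I1² ∑_{s', cost ≤ E/64} ∏ 1/(φ (E + βee)²)
 ≥ I1² (I2^(K-1) - (1/(E/64)) (K-1) J I2^(K-2)) ≥ I1² I2^(K-1)/2` by Markov's inequality, if
`(K - 1) J ≤ (E/64) I2/2`, which holds if `β ≥ C₁ K log K` (`J ≤ C β^(-2) log(1+β)`,
`I2 ≥ c/(βE)`).  So `(c3/E) ∑_j NH (H.erase j)/NH H ≥ c3 K I1²/(2 E I2) ≥
c3 K (c²/(2 C β)) log(β/130)² ≥ c' c3 log K ≥ k` for large `K`. -/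
def StmtMT : Prop := ∀ (c3 : ℝ) (k : ℕ), 0 < c3 → ∃ (K β : ℕ) (C : ℝ), 1 ≤ K ∧ 1 ≤ C ∧ ∃ E0 : ℕ,
  ∀ E z : ℕ, E0 ≤ E → E ≤ z → ∀ H : Finset ℕ, H.card = K →
  Ad 1 E z H (TH E z H) (kH E z β H) ∧
  (∀ j ∈ H, Ad C E z (H.erase j) (Tj H j (TH E z H)) (kj H j (TH E z H) (kH E z β H))) ∧
  1 / (2 * (E : ℝ)) ^ (2 * K) ≤ NH H (TH E z H) (kH E z β H) ∧
  (k : ℝ) * NH H (TH E z H) (kH E z β H) ≤
    c3 / E * ∑ j ∈ H, NH (H.erase j) (Tj H j (TH E z H)) (kj H j (TH E z H) (kH E z β H))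

/-! ## The class -/

/-- Rankin's parameter, with few smooth numbers.
Proof.  As `CR.StmtRN` (`Pool/Agent/Helper38/CR/RN.lean`, `Pool/Agent/Helper73/RR/RK.lean`):
`u = C' L/l3`, `v = l1/u`, `t = ⌊exp v⌋`; the bound `Helper31.LG.sm` for the smooth numbers gives
any power of `1/log w` if `C'` is large. -/
def StmtRNZ : Prop := ∃ C : ℝ, 1 ≤ C ∧ ∃ w0 : ℕ, ∀ w Y : ℕ, w0 ≤ w → w ≤ Y →
  (Y : ℝ) ≤ w * Real.log w ^ 4 → ∃ t : ℕ, 2 ≤ t ∧ t ≤ w ∧ Real.log w ^ 4 ≤ t ∧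
  (((Icc 1 Y).filter (fun h : ℕ => ∀ p, p.Prime → p ∣ h → p ≤ t)).card : ℝ)
    ≤ Y / Real.log w ^ 3 ∧
  Real.log w * Real.log (Real.log (Real.log w)) / (C * Real.log (Real.log w)) ≤ Real.log t ∧
  Real.log t ≤ Real.log w * Real.log (Real.log (Real.log w)) / Real.log (Real.log w)

/-- the `h ≤ Y` without prime factor in `(t, w]`, except for the primes of `Bd` -/
noncomputable def ZZ (Y t w : ℕ) (Bd : Finset ℕ) : Finset ℕ :=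
  (Icc 1 Y).filter (fun h => ∀ p, p.Prime → t < p → p ≤ w → p ∉ Bd → ¬ p ∣ h)

/-- `ZZ` in progressions.
Proof.  (i) Multiples of the primes of `Bd`: at most `#Bd Y/t`.  (ii) No prime factor in `(t, w]`:
`t`-smooth `h`, or `h = m p` with a prime `p > w`, `m ≤ Y/w ≤ (log w)^4`.  For fixed `m` the primes
`p ≤ Y/m` with `m p ≡ h' (e)` are in one class modulo `e₁ = e/gcd(e, m)` (or there are none), and
`p > w > e`, so the class is a unit class; Brun-Titchmarsh (`Pool.Agent.Helper27.LG.bg`) gives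
`≤ C (Y/m)/(φ(e₁) log w)` because `Y/(m e₁) ≥ w/(log w)^2`; `φ(e₁) ≥ φ(e)/gcd(e, m)` and
`∑_{m ≤ (log w)^4} gcd(e, m)/m ≤ τ(e) (1 + 4 log log w)`. -/
def StmtZA : Prop := ∃ C : ℝ, 1 ≤ C ∧ ∃ w0 : ℕ, ∀ w Y t e h' : ℕ, w0 ≤ w → w ≤ Y →
  (Y : ℝ) ≤ w * Real.log w ^ 4 → 2 ≤ t → t ≤ w → 1 ≤ e → (e : ℝ) ≤ Real.log w ^ 2 →
  ∀ Bd : Finset ℕ, (∀ p ∈ Bd, t < p) →
  (((ZZ Y t w Bd).filter (fun h => h ≡ h' [MOD e])).card : ℝ)
    ≤ C * ((e.divisors.card : ℝ) / (Nat.totient e : ℝ) * Y * Real.log (Real.log w) / Real.log w)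
      + (((Icc 1 Y).filter (fun h : ℕ => ∀ p, p.Prime → p ∣ h → p ≤ t)).card : ℝ)
      + Bd.card * (Y / t)

/-- The mean over `ZZ` of a power of `m/φ(m)`, `m = |h - h'|`.
Proof.  `(m/φ(m))^K = ∑_{e ∣ m, e squarefree} g(e)`, `g(p) = (1 - 1/p)^(-K) - 1 ≤ C_K/p`.
`e > (log w)^2`: at most `2Y/e` of the `h ≤ Y`, `h ≠ h'`, have `e ∣ h - h'`, and
`∑_{e > L²} C^ω(e) e^(-2) ≤ C' L^(-3/2)`.  `e ≤ (log w)^2`: `StmtZA`;
`∑ C^ω(e) τ(e)/(e φ(e)) ≤ C'`; the other terms are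
`≤ (∑_{e ≤ (log w)^2} g(e)) (Y/(log w)^3 + K log w Y/t)`, and
`∑_{e ≤ (log w)^2} g(e) ≤ ∏_{p ≤ (log w)^2} (1 + C_K/p) ≤ (log log w)^C'`, `t ≥ (log w)^4`. -/
def StmtZS : Prop := ∀ K : ℕ, ∃ C : ℝ, 1 ≤ C ∧ ∃ w0 : ℕ, ∀ w Y t h' : ℕ, w0 ≤ w → w ≤ Y →
  (Y : ℝ) ≤ w * Real.log w ^ 4 → 2 ≤ t → t ≤ w → Real.log w ^ 4 ≤ t →
  (((Icc 1 Y).filter (fun h : ℕ => ∀ p, p.Prime → p ∣ h → p ≤ t)).card : ℝ)
    ≤ Y / Real.log w ^ 3 →
  h' ∈ Icc 1 Y → ∀ Bd : Finset ℕ, (∀ p ∈ Bd, t < p) → (Bd.card : ℝ) ≤ K * Real.log w →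
  ∑ h ∈ (ZZ Y t w Bd).filter (fun h => h ≠ h'),
      ((Nat.dist h h' : ℝ) / (Nat.totient (Nat.dist h h') : ℝ)) ^ K
    ≤ C * (Y * Real.log (Real.log w) / Real.log w)

/-- THE CHOICE OF THE CLASS, WITH PRESCRIBED SURVIVORS `H`.
Proof.  Let `t` be as in `StmtRNZ`, `P₁` the primes `≤ w` except `p`, `Bd` the primes of `(t, w]`
which are `p` or divide an element of `H`; `#Bd ≤ 1 + K log Y/log t ≤ (K + 1) log w`.
Choose `b ≡ 0` modulo the primes of `(t, w]` outside of `Bd`, and for the primes `l ∈ P₁` which are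
`≤ t` or in `Bd` choose `b` modulo `l` at random (average over the product) among the classes with
`b + h ≢ 0 (l)` for all `h ∈ H` (there is one, because `H` is admissible).  All `h ∈ H` survive.
Let `h ≤ Y`, `h ∉ H`.  If `h` survives then `h ∈ ZZ Y t w Bd` (with `p ∈ Bd`).  For a prime
`l ≤ t`, `l ≠ p`, with `h ≢ h' (l)` for all `h' ∈ H`, the class `-h` is one of the allowed ones, so
`h` survives with probability `≤ 1 - 1/l`.  So the mean number of survivors outside of `H` is at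
most `2 ∏_{l ≤ t} (1 - 1/l) ∑_{h ∈ ZZ \ H} ∏_{h' ∈ H} |h - h'|/φ(|h - h'|)`
(the product over the `l` dividing some `h - h'` of `(1 - 1/l)^(-1)` is at most that), and
`∏_{h' ∈ H} f(h') ≤ ∑_{h' ∈ H} f(h')^(K+1)` for `f ≥ 1` (`H ≠ ∅`); `StmtZS` with `K + 1`;
`∏_{l ≤ t} (1 - 1/l) ≤ C/log t` (`Helper73.RR.prod_le`) and the lower bound for `log t`.  The
`K` points of `H` are negligible. -/
def StmtRCH : Prop := ∀ K : ℕ, 1 ≤ K → ∃ C : ℝ, 1 ≤ C ∧ ∃ w0 : ℕ, ∀ w p Y : ℕ, w0 ≤ w →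
  p.Prime → p ≤ w → w * Real.log w ≤ Y → (Y : ℝ) ≤ w * Real.log w ^ 4 →
  ∀ H : Finset ℕ, H ⊆ Icc 1 Y → H.card = K →
  (∀ l : ℕ, l.Prime → ∃ a : ℕ, ∀ h ∈ H, ¬ h ≡ a [MOD l]) →
  ∃ b : ℕ, b < primorial w / p ∧ (∀ h ∈ H, Nat.Coprime (b + h) (primorial w / p)) ∧
  (((Icc 1 Y).filter (fun h => Nat.Coprime (b + h) (primorial w / p))).card : ℝ)
    ≤ C * (Y * Real.log (Real.log w) ^ 2 /
        (Real.log w ^ 2 * Real.log (Real.log (Real.log w))))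

/-! ## Parameters -/

/-- The parameters.
Proof.  As `CS.StmtPM2` (`Pool/Agent/Helper88/CS/PM2.lean`): `E = ⌊(log x)^(1/4)⌋`, `z` from
`Pool.Agent.Helper88.RR.scale`, `w = ⌊log x/(C (log log x)^2)⌋`, `Y = ⌈c Rec x⌉` and now
`y = ⌈(log x)^A⌉`; `om y z ≤ C' log y/log z` (`Pool.Agent.Helper37.PP.mp`), with
`log y ≤ 2 A log log x`. -/
def StmtPMA : Prop := ∃ A' : ℝ, 1 ≤ A' ∧ ∀ (A : ℕ) (C c : ℝ) (E0 : ℕ), 3 ≤ A → 1 ≤ C → 0 < c →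
  c ≤ 1 → ∃ x0 : ℕ, ∀ x : ℕ, x0 ≤ x → ∃ E z w y Y : ℕ, E0 ≤ E ∧ SrA (A + 1) E z x y ∧
    Real.log x ^ A ≤ y ∧ y ≤ z ∧ Y ≤ y ∧ (Y : ℝ) ≤ Real.log x ^ 2 ∧
    √(Real.log x) ≤ w ∧ C * (w * Real.log (Real.log x) ^ 2) ≤ Real.log x ∧
    primorial w ∣ QQ x ∧ w * Real.log w ≤ Y ∧ (Y : ℝ) ≤ w * Real.log w ^ 4 ∧
    c * Rec x ≤ Y ∧
    Y * Real.log (Real.log w) ^ 2 / (Real.log w ^ 2 * Real.log (Real.log (Real.log w))) * om y z
      ≤ A' * A * c * (E * Real.log E) ∧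
    om y z / E ≤ A' * A * Real.log w / Real.log x ∧ (E : ℝ) ^ 4 ≤ Real.log x

/-! ## The conclusion -/

/-- The windows.
Proof.  Fix `k`.  `A0` from `StmtLVQ`, `A = max A0 3`, `A'` from `StmtPMA`, `cJ` from `CR.StmtPJ`
(`Pool.Agent.Helper88.CR.mPJ`), `c3 = min(1, cJ/(A' A))/4`; `K, β, C` from `StmtMT` for `c3` and
`2k + 2`; `C_K` from `StmtRCH`; `η ≤ min(1/4, c3/4, 1/(8K))`; `c` (in `StmtPMA`) such that
`C_K A' A c ≤ c1` (`StmtKV`).  For large `x` take the parameters of `StmtPMA` (with `C ≥ 64` and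
`≥ C_J`), `p` from `StmtPJ`, `q = primorial w/p ∣ QQ x`.  Given `H`, let `b` be from `StmtRCH`,
`P` the other `h ≤ Y` with `(b+h, q) = 1`, `N₀ = NI (x/32) x q b`, `X = XI (x/32) x q`,
`o = om y z`, `T = TH E z H`, `κ = kH E z β H`, `Wt(n) = W1 E z y P n ^ 2 * VH y z H T κ n ^ 2`,
`D = D1`, `Nn = NH H T κ`, `ε = exp(-c E)`.
`∑ Wt ≤ X (D o^K Nn + ε)` (`StmtSV`).
`∑ Wt #{h ∈ P : n + h prime} ≤ X (η D o^K Nn + ε)` (`StmtKV`).
For `j ∈ H`: `pw x (n+j) = 0` unless `n + j` is prime, and then `VH H = VH (H.erase j) ..`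
(`StmtVJ`; labels `< z^(E/64) ≤ x/32 < n`), so by `StmtLVQ` and
`∑_n pw x (n+j) ≥ cJ X log w/log x ≥ 4 c3 X o/E` (`StmtPJ`, `StmtPMA`)
`∑ pw x (n+j) Wt ≥ D Nj o^(K-1) ((1-η) 4 c3 - η) X o/E - ε X ≥ X (2 c3/E) D o^K Nj - ε X`,
`Nj = NH (H.erase j) ..`; summed over `j`: `≥ X (D o^K (2k+2) Nn - K ε)`.
So `∑ Wt (∑_{j ∈ H} pw x (n+j) - k - K #{h ∈ P : n+h prime}) ≥
X (D o^K Nn (2k + 2 - k - K η) - (2K + k) ε) ≥ X o^K Nn/2`, because `D ≥ 1`,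
`Nn ≥ (2E)^(-2K)`, `o ≥ c'/log x ≥ c' exp(-E^(1/3))` (`CR.StmtOM`), so `(2K + k) ε` is much smaller
than `o^K Nn`.  If the bracket is positive at `n`, no `h ∈ P` has `n + h` prime (the bracket is
`≤ K - k - K` otherwise), more than `k` of the `h ∈ H` have `n + h` prime, and a prime `n + h`,
`h ≤ Y`, has `(b + h, q) = 1` (`n + h > w`), so `h ∈ H ∪ P`.  The bracket is `≤ K` and
`Wt ≤ exp(E²) ≤ exp(√(log x))` (`StmtSUV`), so the number of these `n` is at least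
`X o^K Nn/(2 K exp(√(log x)))`, and `X ≥ x/(4 q)`, `q ≤ 4^w ≤ exp(log x/(40 (log log x)^2))`
(as `CS.size2` in `Pool/Agent/Helper88/CS/FR2.lean`). -/
def StmtFRM : Prop := ∀ k : ℕ, ∃ K : ℕ, ∃ c : ℝ, 0 < c ∧ ∃ x0 : ℕ, ∀ x : ℕ, x0 ≤ x →
  ∃ Y : ℕ, c * Rec x ≤ Y ∧ (Y : ℝ) ≤ Real.log x ^ 2 ∧ ∀ H : Finset ℕ, H ⊆ Icc 1 Y →
  H.card = K → (∀ l : ℕ, l.Prime → ∃ a : ℕ, ∀ h ∈ H, ¬ h ≡ a [MOD l]) →
  ∃ N : Finset ℕ, (∀ n ∈ N, n ≤ x ∧ (∀ h ∈ Icc 1 Y, (n + h).Prime → h ∈ H) ∧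
    k < (H.filter (fun h => (n + h).Prime)).card) ∧
  x * Real.exp (-(Real.log x / (16 * Real.log (Real.log x) ^ 2))) ≤ N.card

/-- The real form, with a slightly better exponent than in the final theorem.
Proof.  `StmtFRM` at `x' = ⌊x/2⌋`, `m = n + 1`, `H' = H + 1`; `Rec x' ≥ Rec x/8`, as in
`Pool/Agent/Helper88/CS/Fin.lean`. -/
def StmtMM0 : Prop := ∀ k : ℕ, ∃ K : ℕ, ∃ c : ℝ, 0 < c ∧ ∃ X : ℝ, ∀ x : ℝ, X ≤ x →
  ∀ H : Finset ℕ, H.card = K → (∀ h ∈ H, (h : ℝ) ≤ c * Rec x) →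
  (∀ l : ℕ, l.Prime → ∃ a : ℕ, ∀ h ∈ H, ¬ h ≡ a [MOD l]) →
  x ^ (1 - 1 / (4 * Real.log (Real.log x) ^ 2))
    ≤ ({m : ℕ | (m : ℝ) + c * Rec x ≤ x ∧
        (∀ q : ℕ, q.Prime → m ≤ q → (q : ℝ) ≤ m + c * Rec x → ∃ h ∈ H, q = m + h) ∧
        k < (H.filter (fun h => (m + h).Prime)).card}.ncard : ℝ)

/-- THE MAIN THEOREM, part 1: prescribed clusters in deserts of record size. -/
def StmtMM : Prop := ∀ k : ℕ, ∃ K : ℕ, ∃ c : ℝ, 0 < c ∧ ∃ X : ℝ, ∀ x : ℝ, X ≤ x →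
  ∀ H : Finset ℕ, H.card = K →
  (∀ h ∈ H, (h : ℝ) ≤ c * (Real.log x * Real.log (Real.log x) ^ 2 *
    Real.log (Real.log (Real.log (Real.log x))) / Real.log (Real.log (Real.log x)) ^ 2)) →
  (∀ l : ℕ, l.Prime → ∃ a : ℕ, ∀ h ∈ H, ¬ h ≡ a [MOD l]) →
  x ^ (1 - 1 / Real.log (Real.log x) ^ 2)
    ≤ ({m : ℕ | (m : ℝ) ≤ x ∧
        (∀ q : ℕ, q.Prime → m ≤ q → (q : ℝ) ≤ m + c * (Real.log x * Real.log (Real.log x) ^ 2 *
          Real.log (Real.log (Real.log (Real.log x))) / Real.log (Real.log (Real.log x)) ^ 2) →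
          ∃ h ∈ H, q = m + h) ∧
        k < (H.filter (fun h => (m + h).Prime)).card}.ncard : ℝ)

/-- THE MAIN THEOREM, part 2: the number of gap lengths which occur often below `x`.
Proof.  `StmtMM0` with `k = 1`: `K` (`≥ 2`), `c`.  `M = primorial K`; for `1 ≤ d ≤ c Rec x/(K M)` let
`H_d = {i M d : i < K}` (admissible: all elements are `≡ 0` modulo the primes `≤ K`, and there are
only `K` elements).  For every `m` of the set there are two elements `m + h < m + h'` of `m + H_d`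
which are consecutive primes (two neighbours among the primes of `m + H_d`), `h' - h = i M d`,
`1 ≤ i < K`.  So for some pair `(h, h')`, at least `x^(1 - 1/(4 (log log x)²))/K²` of the `m`
have this pair, and `m ↦ m + h` is injective: there are at least `x^(1 - 1/(log log x)²)` of the
`n` with `p n ≤ x` (as `m + h ≤ x`) and `p (n+1) - p n = i M d`.  A length `i M d` comes from at
most `K` of the `d`; so there are at least `⌊c Rec x/(K M)⌋/K` lengths. -/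
def StmtLN : Prop := ∃ c : ℝ, 0 < c ∧ ∃ X : ℝ, ∀ x : ℝ, X ≤ x →
  c * (Real.log x * Real.log (Real.log x) ^ 2 *
      Real.log (Real.log (Real.log (Real.log x))) / Real.log (Real.log (Real.log x)) ^ 2)
    ≤ ({l : ℕ | x ^ (1 - 1 / Real.log (Real.log x) ^ 2)
        ≤ ({n : ℕ | (Nat.nth Nat.Prime n : ℝ) ≤ x ∧
          Nat.nth Nat.Prime (n + 1) = Nat.nth Nat.Prime n + l + 1}.ncard : ℝ)}.ncard : ℝ)

/-- THE MAIN THEOREM, part 3: all scales up to the record.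
Proof.  `StmtMM0`: `K`, `c`.  `M = primorial K`; for `1 ≤ d ≤ c Rec x/(K M)` let
`H_d = {i M d : i < K}` (admissible as in `StmtLN`).  For every `m` of the set let `p n` be the
smallest prime of `m + H_d`; all primes of `[m, m + c Rec x]` are in `m + H_d` and there are more
than `k`, so `p n, .., p (n+k) ∈ m + H_d`, the differences are divisible by `M d`, and
`p (n+k) - p n ≤ K M d`, `p (n+k) ≤ m + c Rec x ≤ x`.  A given `n` comes from at most `K` of the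
`m` (`m = p n - h`). -/
def StmtDV : Prop := ∀ k : ℕ, ∃ c C : ℝ, 0 < c ∧ ∃ X : ℝ, ∀ x : ℝ, X ≤ x → ∀ d : ℕ, 1 ≤ d →
  (d : ℝ) ≤ c * (Real.log x * Real.log (Real.log x) ^ 2 *
    Real.log (Real.log (Real.log (Real.log x))) / Real.log (Real.log (Real.log x)) ^ 2) →
  x ^ (1 - 1 / Real.log (Real.log x) ^ 2)
    ≤ ({n : ℕ | (Nat.nth Nat.Prime (n + k) : ℝ) ≤ x ∧
        (Nat.nth Nat.Prime (n + k) : ℝ) ≤ Nat.nth Nat.Prime n + C * d ∧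
        ∀ i < k, d ∣ Nat.nth Nat.Prime (n + i + 1) - Nat.nth Nat.Prime (n + i)}.ncard : ℝ)

end Pool.Agent.Helper23.MC
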