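import Pool.Agent.Helper32.CR.FR
import Pool.Agent.Helper23.MC.Goals3

/-! # Project MC: the windows, auxiliary lemmas -/

set_option autoImplicit false

open Finset Filter Topology

open scoped Classical

namespace Pool.Agent.Helper23.MC

open Pool.Agent.Helper88.PP (pr Rg om Sf SS uu vv ee LA VV QQ cost)
open Pool.Agent.Helper88.RR (gg ab TB WB nz wb DB Db VM)
open Pool.Agent.Helper88.GM (NI XI gB In)
open Pool.Agent.Helper88.CG (tw pw th ic DS sg CN qE mE)
open Pool.Agent.Helper88.CR (Rec)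

/-- the counting argument -/
theorem window3 {S : Finset ℕ} {W : ℕ → ℝ} (hW : ∀ n, 0 ≤ W n)
    {f : ℕ → ℕ → ℝ} (hf : ∀ n j, f n j ≤ if (n + j).Prime then 1 else 0) {P H : Finset ℕ}
    {k K : ℕ} (hK : H.card = K) {A : ℕ → ℝ} {A₃ A₄ B e : ℝ} (hB : ∀ n ∈ S, W n ≤ B)
    (h1 : ∀ j ∈ H, A j ≤ ∑ n ∈ S, f n j * W n)
    (h3 : ∑ n ∈ S, W n ≤ A₃)
    (h4 : ∑ n ∈ S, W n * ((P.filter (fun h => (n + h).Prime)).card : ℝ) ≤ A₄)
    (hpos : e ≤ ∑ j ∈ H, A j - k * A₃ - K * A₄) :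
    ∃ N ⊆ S, (∀ n ∈ N, (∀ h ∈ P, ¬ (n + h).Prime) ∧
      k < (H.filter (fun h => (n + h).Prime)).card) ∧ e ≤ K * B * N.card := by
  set br : ℕ → ℝ := fun n => ∑ j ∈ H, f n j - k -
      K * ((P.filter (fun h => (n + h).Prime)).card : ℝ) with hbr
  have h7 : ∀ n, ∑ j ∈ H, f n j ≤ ((H.filter (fun h => (n + h).Prime)).card : ℝ) := by
    intro n
    calc ∑ j ∈ H, f n j ≤ ∑ j ∈ H, (if (n + j).Prime then (1 : ℝ) else 0) :=
          sum_le_sum fun j _ => hf n j
      _ = _ := by rw [← sum_filter, sum_const, nsmul_eq_mul, mul_one]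
  have h8 : ∀ n, ((H.filter (fun h => (n + h).Prime)).card : ℝ) ≤ K := by
    intro n
    rw [← hK]
    exact_mod_cast card_filter_le _ _
  have hk0 : (0 : ℝ) ≤ k := Nat.cast_nonneg _
  have hK0 : (0 : ℝ) ≤ K := Nat.cast_nonneg _
  have hkil : ∀ n, 0 ≤ (K : ℝ) * ((P.filter (fun h => (n + h).Prime)).card : ℝ) := by
    intro n
    positivity
  have hbrK : ∀ n, br n ≤ K := by
    intro n
    have a1 := h7 n
    have a2 := h8 n
    have a3 := hkil n
    rw [hbr]
    simp only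
    linarith
  refine ⟨S.filter (fun n => 0 < br n), filter_subset _ _, ?_, ?_⟩
  · intro n hn
    have h6 := (mem_filter.1 hn).2
    have b1 := h7 n
    have b2 := h8 n
    have b3 := hkil n
    rw [hbr] at h6
    simp only at h6
    refine ⟨?_, ?_⟩
    · intro h hh hp
      have h11 : 1 ≤ ((P.filter (fun h => (n + h).Prime)).card : ℝ) := by
        have : 0 < (P.filter (fun h => (n + h).Prime)).card :=
          card_pos.2 ⟨h, mem_filter.2 ⟨hh, hp⟩⟩
        exact_mod_cast this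
      have h12 : (K : ℝ) ≤ K * ((P.filter (fun h => (n + h).Prime)).card : ℝ) := by
        nlinarith
      linarith
    · have h13 : (k : ℝ) < ((H.filter (fun h => (n + h).Prime)).card : ℝ) := by linarith
      exact_mod_cast h13
  · have h6 : ∑ n ∈ S, W n * br n ≤ K * B * ((S.filter (fun n => 0 < br n)).card : ℝ) := by
      calc ∑ n ∈ S, W n * br n ≤ ∑ n ∈ S, (if 0 < br n then (K : ℝ) * B else 0) := by
            refine sum_le_sum fun n hn => ?_
            split_ifs with h5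
            · have a1 : W n * br n ≤ B * K :=
                mul_le_mul (hB n hn) (hbrK n) h5.le ((hW n).trans (hB n hn))
              linarith
            · exact mul_nonpos_of_nonneg_of_nonpos (hW n) (not_lt.1 h5)
        _ = K * B * ((S.filter (fun n => 0 < br n)).card : ℝ) := by
            rw [← sum_filter, sum_const, nsmul_eq_mul]
            ring
    refine le_trans ?_ h6
    have h9 : ∑ n ∈ S, W n * br n = ∑ j ∈ H, ∑ n ∈ S, f n j * W n - k * ∑ n ∈ S, W n -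
        K * ∑ n ∈ S, W n * ((P.filter (fun h => (n + h).Prime)).card : ℝ) := by
      rw [sum_comm, mul_sum, mul_sum, ← sum_sub_distrib, ← sum_sub_distrib]
      refine sum_congr rfl fun n _ => ?_
      rw [hbr]
      simp only
      rw [← sum_mul]
      ring
    have h10 := sum_le_sum h1
    have h14 : (k : ℝ) * ∑ n ∈ S, W n ≤ k * A₃ := mul_le_mul_of_nonneg_left h3 hk0
    have h15 : (K : ℝ) * ∑ n ∈ S, W n * ((P.filter (fun h => (n + h).Prime)).card : ℝ) ≤ K * A₄ :=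
      mul_le_mul_of_nonneg_left h4 hK0
    rw [h9]
    linarith

/-- the size of the set of good `n` -/
theorem size3 (C : ℝ) : ∃ x0 : ℕ, ∀ x w E q : ℕ, x0 ≤ x →
    64 * (w * Real.log (Real.log x) ^ 2) ≤ Real.log x → (E : ℝ) ^ 4 ≤ Real.log x →
    0 < q → q ≤ primorial w →
    Real.exp (C * Real.log (Real.log x)) * Real.exp ((E : ℝ) ^ 2) *
      (x * Real.exp (-(Real.log x / (16 * Real.log (Real.log x) ^ 2)))) ≤ XI (x / 32) x q := by
  have t1 : Tendsto (fun x : ℕ => Real.log (x : ℝ)) atTop atTop :=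
    Real.tendsto_log_atTop.comp tendsto_natCast_atTop_atTop
  have e1 : ∀ᶠ u : ℝ in atTop, 100 * Real.log u ^ 2 ≤ √u := by
    have h1 : ∀ᶠ u : ℝ in atTop, ‖Real.log u ^ 2‖ ≤ 1 / 400 * ‖id u‖ :=
      (Asymptotics.isLittleO_iff.1 Real.isLittleO_pow_log_id_atTop) (by norm_num)
    filter_upwards [Real.tendsto_sqrt_atTop.eventually h1, eventually_ge_atTop (1 : ℝ)] with u h2 h3
    have h4 : Real.log (√u) = Real.log u / 2 := Real.log_sqrt (by linarith)
    have h5 : 0 ≤ Real.log u := Real.log_nonneg h3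
    rw [id, Real.norm_of_nonneg (by positivity), Real.norm_of_nonneg (by positivity), h4] at h2
    have h6 : Real.log u ^ 2 = 4 * (Real.log u / 2) ^ 2 := by ring
    rw [h6]
    linarith
  have e2 : ∀ᶠ u : ℝ in atTop, Real.log 4 + |C| * Real.log u ≤ √u := by
    have h1 : ∀ᶠ u : ℝ in atTop, ‖Real.log u‖ ≤ 1 / (4 * (|C| + 1)) * ‖id u‖ :=
      (Asymptotics.isLittleO_iff.1 Real.isLittleO_log_id_atTop) (by positivity)
    filter_upwards [Real.tendsto_sqrt_atTop.eventually h1, eventually_ge_atTop (16 : ℝ)] with u h2 h3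
    have h4 : Real.log (√u) = Real.log u / 2 := Real.log_sqrt (by linarith)
    have h5 : 0 ≤ Real.log u := Real.log_nonneg (by linarith)
    rw [id, Real.norm_of_nonneg (by rw [h4]; positivity), Real.norm_of_nonneg (by positivity),
      h4] at h2
    have h6 : 4 ≤ √u := by
      rw [Real.le_sqrt (by norm_num) (by linarith)]
      linarith
    have h7 : Real.log 4 ≤ 2 := by
      have h8 : Real.log (4 : ℝ) = 2 * Real.log 2 := by
        rw [show (4 : ℝ) = 2 ^ 2 by norm_num, Real.log_pow]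
        norm_num
      have := Real.log_two_lt_d9
      linarith
    have hC0 : 0 ≤ |C| := abs_nonneg C
    have h9 : |C| * Real.log u ≤ √u / 2 := by
      have h10 : Real.log u ≤ √u / (2 * (|C| + 1)) := by
        rw [div_mul_eq_mul_div, one_mul, le_div_iff₀ (by positivity)] at h2
        rw [le_div_iff₀ (by positivity)]
        linarith
      rw [le_div_iff₀ (by positivity)] at h10
      nlinarith
    linarith
  obtain ⟨x0, hx0⟩ := eventually_atTop.1 ((t1.eventually e1).and ((t1.eventually e2).and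
    ((t1.eventually_ge_atTop 16).and (eventually_ge_atTop 2))))
  refine ⟨x0, fun x w E q hx hw hE hq hqw => ?_⟩
  obtain ⟨a1, a2, a3, a4⟩ := hx0 x hx
  set l1 := Real.log (x : ℝ) with hl1
  set l2 := Real.log l1 with hl2
  have hl10 : 0 < l1 := by linarith
  have hl20 : 1 ≤ l2 := by
    have h9 : Real.exp 1 ≤ l1 := (Real.exp_one_lt_d9.le.trans (by norm_num)).trans a3
    calc (1 : ℝ) = Real.log (Real.exp 1) := (Real.log_exp 1).symm
      _ ≤ Real.log l1 := Real.log_le_log (Real.exp_pos 1) h9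
  have hl22 : 0 < l2 ^ 2 := by positivity
  have hx2 : (2 : ℝ) ≤ x := by exact_mod_cast a4
  have hs0 : 0 < √l1 := Real.sqrt_pos.2 hl10
  have hss : √l1 * √l1 = l1 := Real.mul_self_sqrt hl10.le
  have hE2 : (E : ℝ) ^ 2 ≤ √l1 := by
    apply Real.le_sqrt_of_sq_le
    calc ((E : ℝ) ^ 2) ^ 2 = (E : ℝ) ^ 4 := by ring
      _ ≤ l1 := hE
  have hw1 : (w : ℝ) ≤ l1 / (64 * l2 ^ 2) := by
    rw [le_div_iff₀ (by positivity)]
    linarith
  have hCl : C * l2 ≤ |C| * l2 := mul_le_mul_of_nonneg_right (le_abs_self C) (by linarith)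
  -- main comparison of exponents
  have hexp : Real.log 4 + C * l2 + (E : ℝ) ^ 2 + w * Real.log 4 ≤ l1 / (16 * l2 ^ 2) := by
    have h4 : Real.log (4 : ℝ) ≤ 3 / 2 := by
      have h5 : Real.log (4 : ℝ) = 2 * Real.log 2 := by
        rw [show (4 : ℝ) = 2 ^ 2 by norm_num, Real.log_pow]
        norm_num
      have := Real.log_two_lt_d9
      linarith
    have h6 : (w : ℝ) * Real.log 4 ≤ l1 / (64 * l2 ^ 2) * (3 / 2) :=
      mul_le_mul hw1 h4 (Real.log_nonneg (by norm_num)) (by positivity)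
    have h8 : √l1 ≤ l1 / (100 * l2 ^ 2) := by
      rw [le_div_iff₀ (by positivity)]
      calc √l1 * (100 * l2 ^ 2) ≤ √l1 * √l1 := mul_le_mul_of_nonneg_left a1 hs0.le
        _ = l1 := hss
    have h9 : 2 * (l1 / (100 * l2 ^ 2)) + l1 / (64 * l2 ^ 2) * (3 / 2) ≤ l1 / (16 * l2 ^ 2) := by
      have h10 : 0 ≤ l1 / l2 ^ 2 := by positivity
      have h11 : l1 / (100 * l2 ^ 2) = l1 / l2 ^ 2 * (1 / 100) := by field_simp
      have h12 : l1 / (64 * l2 ^ 2) * (3 / 2) = l1 / l2 ^ 2 * (3 / 128) := by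
        field_simp
        norm_num
      have h13 : l1 / (16 * l2 ^ 2) = l1 / l2 ^ 2 * (1 / 16) := by field_simp
      rw [h11, h12, h13]
      linarith
    linarith
  have hq4 : (q : ℝ) ≤ Real.exp (w * Real.log 4) := by
    have h5 : (primorial w : ℝ) ≤ (4 : ℝ) ^ w := by exact_mod_cast primorial_le_four_pow w
    have h6 : Real.exp (w * Real.log 4) = (4 : ℝ) ^ w := by
      rw [Real.exp_nat_mul, Real.exp_log (by norm_num)]
    rw [h6]
    exact le_trans (by exact_mod_cast hqw) h5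
  have hq0 : (0 : ℝ) < q := by exact_mod_cast hq
  rw [XI, le_div_iff₀ hq0]
  have h32 : (x : ℝ) / 2 ≤ ((x - x / 32 : ℕ) : ℝ) := by
    have h5 : x ≤ 2 * (x - x / 32) := by omega
    have h6 : (x : ℝ) ≤ 2 * ((x - x / 32 : ℕ) : ℝ) := by exact_mod_cast h5
    linarith
  have hprod : Real.exp (Real.log 4) * Real.exp (C * l2) * Real.exp ((E : ℝ) ^ 2) *
      Real.exp (-(l1 / (16 * l2 ^ 2))) * Real.exp (w * Real.log 4) ≤ 1 := by
    rw [← Real.exp_add, ← Real.exp_add, ← Real.exp_add, ← Real.exp_add, Real.exp_le_one_iff]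
    linarith
  rw [Real.exp_log (by norm_num : (0 : ℝ) < 4)] at hprod
  calc Real.exp (C * l2) * Real.exp ((E : ℝ) ^ 2) * (x * Real.exp (-(l1 / (16 * l2 ^ 2)))) * q
      ≤ Real.exp (C * l2) * Real.exp ((E : ℝ) ^ 2) * (x * Real.exp (-(l1 / (16 * l2 ^ 2)))) *
        Real.exp (w * Real.log 4) := mul_le_mul_of_nonneg_left hq4 (by positivity)
    _ = x / 4 * (4 * Real.exp (C * l2) * Real.exp ((E : ℝ) ^ 2) *
      Real.exp (-(l1 / (16 * l2 ^ 2))) * Real.exp (w * Real.log 4)) := by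
        ring
    _ ≤ x / 4 * 1 := mul_le_mul_of_nonneg_left hprod (by positivity)
    _ ≤ ((x - x / 32 : ℕ) : ℝ) := by linarith

/-- a small exponential beats everything -/
theorem small_exp (c : ℝ) (hc : 0 < c) (K : ℕ) (C : ℝ) : ∃ E0 : ℕ, ∀ E : ℕ, E0 ≤ E → ∀ l : ℝ,
    0 ≤ l → l ^ 3 ≤ E → C * Real.exp (K * l) * (2 * (E : ℝ)) ^ (2 * K) ≤ Real.exp (c * E) := by
  have e1 : ∀ᶠ E : ℝ in atTop, ‖E ^ (2 * K)‖ ≤
      1 / ((|C| + 1) * 2 ^ (2 * K)) * ‖Real.exp ((c / 2) * E)‖ :=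
    (Asymptotics.isLittleO_iff.1 (isLittleO_pow_exp_pos_mul_atTop (2 * K) (half_pos hc)))
      (by positivity)
  have e2 : ∀ᶠ E : ℝ in atTop, (2 * ((K : ℝ) + 1) / c) ^ 3 ≤ E ^ 2 :=
    (tendsto_pow_atTop (by norm_num)).eventually_ge_atTop _
  obtain ⟨E0, hE0⟩ := eventually_atTop.1 ((tendsto_natCast_atTop_atTop.eventually e1).and
    ((tendsto_natCast_atTop_atTop.eventually e2).and (eventually_ge_atTop 1)))
  refine ⟨E0, fun E hE l hl hl3 => ?_⟩
  obtain ⟨a1, a2, a3⟩ := hE0 E hE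
  have hE1 : (1 : ℝ) ≤ E := by exact_mod_cast a3
  rw [Real.norm_of_nonneg (by positivity), Real.norm_of_nonneg (Real.exp_pos _).le] at a1
  have hKl : (K : ℝ) * l ≤ c / 2 * E := by
    have h1 : l ≤ c / (2 * ((K : ℝ) + 1)) * E := by
      by_contra hcon
      push Not at hcon
      have h2 : (c / (2 * ((K : ℝ) + 1)) * E) ^ 3 < l ^ 3 :=
        pow_lt_pow_left₀ hcon (by positivity) (by norm_num)
      have h3 : (c / (2 * ((K : ℝ) + 1)) * E) ^ 3 = (c / (2 * ((K : ℝ) + 1))) ^ 3 * E ^ 2 * E := by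
        ring
      have h4 : 1 ≤ (c / (2 * ((K : ℝ) + 1))) ^ 3 * E ^ 2 := by
        have h5 : (2 * ((K : ℝ) + 1) / c) ^ 3 * (c / (2 * ((K : ℝ) + 1))) ^ 3 = 1 := by
          rw [← mul_pow]
          have : 2 * ((K : ℝ) + 1) / c * (c / (2 * ((K : ℝ) + 1))) = 1 := by field_simp
          rw [this, one_pow]
        calc (1 : ℝ) = (2 * ((K : ℝ) + 1) / c) ^ 3 * (c / (2 * ((K : ℝ) + 1))) ^ 3 := h5.symm
          _ ≤ E ^ 2 * (c / (2 * ((K : ℝ) + 1))) ^ 3 :=
            mul_le_mul_of_nonneg_right a2 (by positivity)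
          _ = _ := by ring
      have h6 : (E : ℝ) ≤ (c / (2 * ((K : ℝ) + 1))) ^ 3 * E ^ 2 * E :=
        le_mul_of_one_le_left (by linarith) h4
      linarith
    calc (K : ℝ) * l ≤ (K + 1) * (c / (2 * ((K : ℝ) + 1)) * E) :=
          mul_le_mul (by linarith) h1 hl (by positivity)
      _ = c / 2 * E := by field_simp
  have h7 : C * (2 * (E : ℝ)) ^ (2 * K) ≤ Real.exp (c / 2 * E) := by
    rw [one_div_mul_eq_div, le_div_iff₀ (by positivity)] at a1
    calc C * (2 * (E : ℝ)) ^ (2 * K) ≤ (|C| + 1) * (2 * (E : ℝ)) ^ (2 * K) :=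
          mul_le_mul_of_nonneg_right (by linarith [le_abs_self C]) (by positivity)
      _ = (E : ℝ) ^ (2 * K) * ((|C| + 1) * 2 ^ (2 * K)) := by rw [mul_pow]; ring
      _ ≤ _ := a1
  calc C * Real.exp (K * l) * (2 * (E : ℝ)) ^ (2 * K)
      = C * (2 * (E : ℝ)) ^ (2 * K) * Real.exp (K * l) := by ring
    _ ≤ Real.exp (c / 2 * E) * Real.exp (c / 2 * E) :=
        mul_le_mul h7 (Real.exp_le_exp.2 hKl) (Real.exp_pos _).le (Real.exp_pos _).le
    _ = Real.exp (c * E) := by rw [← Real.exp_add]; congr 1; ring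

end Pool.Agent.Helper23.MC
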