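import Pool.Agent.Helper88.CR.GoalsB

/-!
# Prescribed clusters of primes in deserts of record size: statements, part 1 (second moments)

Main theorem (`StmtMM` in `Goals3`): for every `k` there are `K` and `c > 0` such that for all
large `x` and EVERY admissible set `H` of `K` integers in `[0, c R(x)]`,
`R(x) = log x (log_2 x)^2 (log_4 x)/(log_3 x)^2`, there are at least `x^(1 - 1/(log log x)^2)`
integers `m ≤ x` such that all primes of `[m, m + c R(x)]` are of the form `m + h`, `h ∈ H`, and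
there are more than `k` of them.

The weight is `W1 P · VH H`: the first factor is the killing weight of the projects RR, GM, CG, CR,
CS for the points `P` of the window outside of `H` (now of total cost `≤ E/32` instead of `E/16`),
the second one is a Maynard weight on the points of `H`, with labels `≥ 1` at all points of `H`.
Roughness is always with respect to the primes of `(y, z]`, where now `y ≤ (log x)^A` with a
constant `A` (it was `≤ (log x)^2`); all points lie in `[1, y]`.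
-/

set_option autoImplicit false

open Finset Filter Topology

open scoped Classical

namespace Pool.Agent.Helper23.MC

open Pool.Agent.Helper88.PP (pr Rg om Sf SS uu vv ee LA VV QQ cost)
open Pool.Agent.Helper88.RR (gg ab TB WB nz wb DB Db VM)
open Pool.Agent.Helper88.GM (NI XI gB In)
open Pool.Agent.Helper88.CG (tw pw th ic DS sg CN qE mE)

/-- `z = x^(1/E)`, `z ≥ exp E`, `log x ≤ y ≤ (log x)^A`, `(log log x)^3 ≤ E` -/
def SrA (A E z x y : ℕ) : Prop :=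
  Real.exp E ≤ z ∧ z ^ E ≤ x ∧ x < (z + 1) ^ E ∧ Real.log x ≤ y ∧ (y : ℝ) ≤ Real.log x ^ A ∧
    Real.log (Real.log x) ^ 3 ≤ E

/-! ## Counting and second moments -/

/-- `GM.StmtTL` with `SrA A` instead of `Sr`.
Proof.  Copy `Pool/Agent/Helper8/GM/TL.lean`: `y ≤ (log x)^2` is only used for `y < z` (there:
`2 log log x < E`; now `A log log x < E`, for large `E`, because `(log log x)^3 ≤ E`). -/
def StmtTLA : Prop := ∀ A : ℕ, ∃ c : ℝ, 0 < c ∧ ∃ E0 : ℕ, ∀ E z x y : ℕ, E0 ≤ E → SrA A E z x y →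
  ∀ u v Q b : ℕ, In x u v Q b → ∀ B : Finset ℕ, B ⊆ Icc 1 z → B.card ^ 2 ≤ E →
  ∀ d : ℕ → ℕ, (∀ i ∈ B, Sf z (d i)) → ∏ i ∈ B, d i ≤ z ^ (E / 4) →
  ((∀ i ∈ B, ∀ j ∈ B, i ≠ j → Nat.Coprime (d i) (d j)) →
    |(((NI u v Q b).filter (fun n => ∀ i ∈ B, d i ∣ n + i ∧ Rg y z (n + i))).card : ℝ)
      - XI u v Q * (gB y z B * ∏ i ∈ B, (1 / (d i : ℝ)))|
      ≤ Real.exp (-(c * E)) * (XI u v Q * ∏ i ∈ B, (om y z / d i)))
  ∧ (¬ (∀ i ∈ B, ∀ j ∈ B, i ≠ j → Nat.Coprime (d i) (d j)) →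
    ((NI u v Q b).filter (fun n => ∀ i ∈ B, d i ∣ n + i ∧ Rg y z (n + i))).card = 0)

/-- `CG.StmtTG` with `SrA A` instead of `Sr` and without restriction on the numbers of points of
`F` (labels up to `z^(E/32)`) and `G` (label `1`: roughness only).
Proof.  Copy `Pool/Agent/Helper19/CG/TG.lean`: the hypotheses `F.card ≤ 2`, `G.card ≤ 2` are never
used there; replace `Helper8.GM.tl` by `StmtTLA`, and `Sr_x`, `Sr_y`, `Sr_yz` by the same for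
`SrA A` (`(log x)^A ≤ exp(A E^(1/3)) ≤ exp E ≤ z` for large `E`). -/
def StmtTGA : Prop := ∀ A : ℕ, ∃ c : ℝ, 0 < c ∧ ∃ E0 : ℕ, ∀ E z x y : ℕ, E0 ≤ E → SrA A E z x y →
  ∀ u v Q b : ℕ, In x u v Q b → ∀ m q K : ℕ, 1 ≤ m → q * m ≤ E / 16 → 1 ≤ VV z m (q * m) →
  K ^ 3 ≤ E → ∀ P : Finset ℕ, P ⊆ Icc 1 y → (P.card : ℝ) * om y z ≤ (E : ℝ) ^ 2 →
  ∀ (T : Finset (P → ℕ)) (a : (P → ℕ) → ℝ) (F G : Finset P), Disjoint F G →
  (∀ r ∈ T, ∀ i, i ∉ F → i ∉ G → (r i = 0 ∨ r i ∈ LA z m (q * m))) →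
  (∀ r ∈ T, ∀ i ∈ F, r i ∈ SS z (z ^ (E / 32))) →
  (∀ r ∈ T, ∀ i ∈ G, r i = 1) →
  (∀ r ∈ T, nz r ≤ K) →
  (∀ r ∈ T, ∏ i, max 1 (r i) ≤ z ^ (2 * (E / 16))) →
  (∀ r ∈ T, |a r| ≤ ∏ i, (if i ∈ F then 1 / (VM (E / 32) z * (Nat.totient (r i) : ℝ)) else
    if i ∈ G then 1 else if r i = 0 then 1 else ab m q z (r i))) →
  |∑ n ∈ NI u v Q b, (∑ r ∈ T, a r * ∏ i, vv y z (r i) (n + (i : ℕ))) ^ 2
      - XI u v Q * ∑ r ∈ T, a r ^ 2 *
        (gg y z (nz r) * ∏ i, (if r i = 0 then 1 else (Nat.totient (r i) : ℝ)))|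
    ≤ Real.exp (-(c * E)) * XI u v Q

/-! ## The weights -/

/-- the killing weight, of total cost `≤ E/32` -/
noncomputable def W1 (E z y : ℕ) (P : Finset ℕ) (n : ℕ) : ℝ :=
  WB (mE E) (qE E) (E / 32) z y P n

/-- its mean square -/
noncomputable def D1 (E z y : ℕ) (P : Finset ℕ) : ℝ := DB (mE E) (qE E) (E / 32) z y P

/-- a function on the points of `H` given by labels `≥ 1` -/
noncomputable def VH (y z : ℕ) (H : Finset ℕ) (T : Finset (H → ℕ)) (κ : (H → ℕ) → ℝ) (n : ℕ) : ℝ :=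
  ∑ s ∈ T, κ s * ∏ i : H, vv y z (s i) (n + (i : ℕ))

/-- its norm (without the density of the roughness) -/
noncomputable def NH (H : Finset ℕ) (T : Finset (H → ℕ)) (κ : (H → ℕ) → ℝ) : ℝ :=
  ∑ s ∈ T, κ s ^ 2 * ∏ i : H, (Nat.totient (s i) : ℝ)

/-- allowed label functions and coefficients on the points of `H` -/
def Ad (C : ℝ) (E z : ℕ) (H : Finset ℕ) (T : Finset (H → ℕ)) (κ : (H → ℕ) → ℝ) : Prop :=
  (∀ s ∈ T, ∀ i, s i ∈ SS z (z ^ (E / 32))) ∧ (∀ s ∈ T, ∏ i, s i ≤ z ^ (E / 32)) ∧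
    ∀ s ∈ T, |κ s| ≤ C * ∏ i : H, 1 / ((E : ℝ) * (Nat.totient (s i) : ℝ))

/-- Sizes of the parameters, and the densities `gg`.
Proof.  (1) As `Pool/Agent/Helper88/CG/VP.lean` (`CG.StmtVP`): `E/16/mE < 2 q^2`, `q = qE E`,
`q^16 ≤ E`; `q^2 * mE ≤ E/16` and `q ≥ 2` give `q * mE ≤ E/32` and
`4 (q/4) (q * mE) ≤ q^2 * mE ≤ E/16`.
(2) `gg y z (k + h) ≤ gg y z k * om y z ^ h`: factor by factor, all factors are `≥ 0` as
`k + h ≤ y`; `1 - (k+h)/p ≤ (1 - k/p) (1 - 1/p)^h` (induction on `h`). -/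
def StmtGV : Prop := ∀ K0 : ℕ, ∃ c : ℝ, 0 < c ∧ ∃ E0 : ℕ, ∀ E : ℕ, E0 ≤ E →
  (1 ≤ mE E ∧ qE E * mE E ≤ E / 32 ∧ 2 * (qE E / 4 * (qE E * mE E)) ≤ E / 32 ∧ 2 ≤ E / 32 ∧
    (2 * (E / 32 / mE E + K0 + 2)) ^ 6 ≤ E ∧ E ^ 3 ≤ mE E ^ 4 ∧
    ∀ z : ℕ, 2 ≤ z → 1 ≤ VV z (mE E) (qE E * mE E) ∧
      c * Real.log E ≤ VV z (mE E) (qE E * mE E)) ∧
  ∀ y z k h : ℕ, k + h ≤ y → 0 ≤ gg y z (k + h) ∧ gg y z (k + h) ≤ gg y z k * om y z ^ h

/-- The mean square of the weight, upper bound.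
Proof.  `W1 P n * VH H n` is a function given by labels on `P ∪ H` (`T` = the products of
`TB (mE E) (qE E) (E/32) z P` with `T`, coefficients the products).  Apply `StmtTGA` with `F` the
points of `H`, `G = ∅`, `m = mE E`, `q = qE E`, `K = E/32/mE E + K0` (a label at a point of `P` costs
`≥ mE E`), to `a = coefficients / (C C'^K0)`, where `1/E ≤ C'/VM (E/32) z` and `1 ≤ C'` is from
`Pool.Agent.Helper24.PP.ma` (`VM (E/32) z ≤ C' (E/32)`); the products of the labels are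
`≤ z^(E/32) * z^(E/32)` (a label `r` is `≤ z^(ee z r)`).  Main term: `nz (r, s) = nz r + H.card` and
`gg (nz r + h) ≤ gg (nz r) om^h` (`StmtGV`), so it is `≤ XI * D1 * om^h * NH`.  Multiply by
`(C C'^K0)^2`; this constant is absorbed by `exp(-c E)`. -/
def StmtSV : Prop := ∀ (A K0 : ℕ) (C : ℝ), 1 ≤ C → ∃ c : ℝ, 0 < c ∧ ∃ E0 : ℕ, ∀ E z x y : ℕ,
  E0 ≤ E → SrA A E z x y → ∀ u v Q b : ℕ, In x u v Q b → ∀ P H : Finset ℕ, P ⊆ Icc 1 y →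
  H ⊆ Icc 1 y → Disjoint P H → H.card ≤ K0 → (P.card : ℝ) * om y z ≤ (E : ℝ) ^ 2 / 2 →
  ∀ (T : Finset (H → ℕ)) (κ : (H → ℕ) → ℝ), Ad C E z H T κ →
  1 ≤ D1 E z y P ∧
  ∑ n ∈ NI u v Q b, W1 E z y P n ^ 2 * VH y z H T κ n ^ 2
    ≤ XI u v Q * (D1 E z y P * (om y z ^ H.card * NH H T κ) + Real.exp (-(c * E)))

/-- The primes at the points of `P` are killed.
Proof.  As `Pool/Agent/Helper88/CG/KQ.lean` (and `Helper6/GM/GT`, `Helper59/RR/PW`): at a prime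
`n + h`, `h ∈ P`, `W1 P n` equals `GB' P h n`, defined as `RR.GB` with `M = E/32` everywhere
(`Helper59.RR.pw` is for general `M`).  So the sum is at most
`∑_{h ∈ P} ∑_n (GB' P h n * VH H n)^2`.  Apply `StmtTGA` on `P ∪ H` with `F = H ∪ {h}`, `G = ∅`
(labels: `r ∈ TB` with `r h = 0`, `s ∈ SS z (z^(E/32))` at `h`, and those of `T`; products
`≤ z^(3 (E/32)) ≤ z^(2 (E/16))`; number of nonzero labels `≤ E/32/mE E + K0 + 1`): the main term is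
at most `XI * om^(H.card) * NH * om * (1/VM) * ∑_{r ∈ TB, E/32 < cost + qE mE} wb` because the
leftover `Db` is `0` unless `cost r > E/32 - qE mE`, and `≤ 1` (as in `GT`).  The tail sum is
`≤ 2^(-(qE/4)) D1` by `RR.StmtRA` (`Helper28.RR.ra`, `Helper88.RR.tail`) with `j = qE/4`, provided
`4 P.card om /VV ≤ E/32`, i.e. for a small absolute `c1`; `P.card * om * 2^(-qE/4)` is as small as
we want (`P.card om ≤ E^2`, `qE ≥ E^(1/16)/2`), as in `CG.small`. -/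
def StmtKV : Prop := ∃ c1 : ℝ, 0 < c1 ∧ c1 ≤ 1 / 2 ∧ ∀ (A K0 : ℕ) (C η : ℝ), 1 ≤ C → 0 < η →
  ∃ c : ℝ, 0 < c ∧ ∃ E0 : ℕ, ∀ E z x y : ℕ, E0 ≤ E → SrA A E z x y → ∀ Q b : ℕ, Q ∣ QQ x → b < Q →
  ∀ P H : Finset ℕ, P ⊆ Icc 1 y → H ⊆ Icc 1 y → Disjoint P H → H.card ≤ K0 →
  (P.card : ℝ) * om y z ≤ c1 * (E * Real.log E) →
  ∀ (T : Finset (H → ℕ)) (κ : (H → ℕ) → ℝ), Ad C E z H T κ →
  ∑ n ∈ NI (x / 32) x Q b, W1 E z y P n ^ 2 * VH y z H T κ n ^ 2 *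
      ((P.filter (fun h => (n + h).Prime)).card : ℝ)
    ≤ XI (x / 32) x Q *
      (η * (D1 E z y P * (om y z ^ H.card * NH H T κ)) + Real.exp (-(c * E)))

/-- The number of rough points of `P` is concentrated, also for prime `n + j` and rough `n + i`,
`i ∈ B`.
Proof.  As `Pool/Agent/Helper40/CG/CO.lean`: majorise the indicator of prime `n + j` and rough
`n + i`, `i ∈ B`, by the square of `∑_{s ∈ SS z (z^(E/32))} vv s (n+j)/(VM φ(s)) ∏_{i ∈ B} vv 1 (n+i)`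
(at a prime `n + j > z^(E/32)` the sum is `1`); expand `(∑_{i ∈ P} [n + i rough] - μ)^2`,
`μ = #P om`, and use `StmtTGA` with `F = {j}` and `G = B ∪ {i, i'}`, `B ∪ {i}` or `B`: with
`b = #B`, `N = #P` the sum is at most
`(XI/VM) (N(N-1) g_(3+b) + N(1 - 2μ) g_(2+b) + μ^2 g_(1+b)) + exp(-cE) XI (..)`,
`g_(3+b) ≤ om^2 g_(1+b)`, `om g_(1+b) (1 - 2(b+2)/y) ≤ g_(2+b) ≤ om g_(1+b)`, `g_(1+b) ≤ om^(1+b)`,
`μ ≤ E^2 ≤ y`; `om ≥ c/E` (`CR.StmtOM`, `Helper88.CR.om_lower`), so `exp(-cE)` is small compared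
with `om^(1+b)/E`. -/
def StmtCOB : Prop := ∀ A K0 : ℕ, ∃ C : ℝ, 0 < C ∧ ∃ E0 : ℕ, ∀ E z x y : ℕ, E0 ≤ E →
  SrA A E z x y → ∀ b : ℕ, b < QQ x → ∀ P B : Finset ℕ, P ⊆ Icc 1 y → B ⊆ Icc 1 y →
  Disjoint P B → B.card ≤ K0 → (P.card : ℝ) * om y z ≤ (E : ℝ) ^ 2 / 2 →
  ∀ j ∈ Icc 1 y, j ∉ P → j ∉ B →
  ∑ n ∈ (NI (x / 32) x (QQ x) b).filter (fun n => (n + j).Prime ∧ ∀ i ∈ B, Rg y z (n + i)),
      (((P.filter (fun h => Rg y z (n + h))).card : ℝ) - P.card * om y z) ^ 2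
    ≤ C * (XI (x / 32) x (QQ x) * (om y z / E) * om y z ^ B.card) * (P.card * om y z + 1)

/-- `CG.StmtCM` for cost `≤ E/32`.
Proof.  Copy `Pool/Agent/Helper74/CG/CM.lean` with `E/32` instead of `E/16` (only
`K₀ = E/32/mE E` changes). -/
def StmtCMA : Prop := ∀ η : ℝ, 0 < η → ∃ E0 : ℕ, ∀ E z y : ℕ, E0 ≤ E → 2 ≤ z → E ≤ y →
  ∀ P S : Finset ℕ, S ⊆ P →
  ((P.card : ℝ) * om y z ≤ √E ∨
    (P.card : ℝ) * om y z * (1 - η / (4 * ((E / 32 / mE E : ℕ) + 1))) ≤ S.card) →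
  (1 - η) * D1 E z y P ≤
    ∑ r ∈ TB (mE E) (qE E) (E / 32) z P, (if ∀ i, r i ≠ 0 → (i : ℕ) ∈ S then
      ∏ i : P, (if r i = 0 then 1 else ab (mE E) (qE E) z (r i) ^ 2 * (Nat.totient (r i) : ℝ))
      else 0)

/-- A bound for the weights at a single integer.
Proof.  `W1`: as `GM.StmtSU` (`Pool.Agent.Helper5.GM.su`; the set of label functions of cost
`≤ E/32` is a subset of that of cost `≤ E/16`; `y ≤ (log x)^A`, `P.card ≤ y`).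
`VH`: `|κ s| ≤ C ∏ 1/(E φ(s_i))`, `|vv y z s m| ≤ ∏_{p ∣ gcd(s, m)} (p - 1)`, so
`|VH| ≤ C ∏_i (∑_{s ∈ SS z (z^(E/32))} (1/(E φ(s))) ∏_{p ∣ s, p ∣ n+i} (p - 1))`; write `s = e s'`,
`e = ` the part dividing `n + i`: the inner sum is at most `2^(ω) (1/E) ∑ 1/φ(s')`, `ω ≤ E + 1` the
number of prime factors `> z` of `n + i ≤ 2x < z^(E+2)`, and `∑_{SS z (z^(E/32))} 1/φ ≤ C' E`
(`Helper24.PP.ma`).  So `|VH| ≤ C (C' 2^(E+2))^K0`. -/
def StmtSUV : Prop := ∀ (A K0 : ℕ) (C : ℝ), 1 ≤ C → ∃ E0 : ℕ, ∀ E z x y : ℕ, E0 ≤ E →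
  SrA A E z x y → ∀ P H : Finset ℕ, P ⊆ Icc 1 y → H ⊆ Icc 1 y → H.card ≤ K0 →
  ∀ (T : Finset (H → ℕ)) (κ : (H → ℕ) → ℝ), Ad C E z H T κ → ∀ n : ℕ, n ≤ x →
    W1 E z y P n ^ 2 * VH y z H T κ n ^ 2 ≤ Real.exp ((E : ℝ) ^ 2)

end Pool.Agent.Helper23.MC
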