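import Pool.Agent.Helper23.MC.Goals3

/-!
# Prescribed clusters of primes in deserts of record size: auxiliary statements
-/

set_option autoImplicit false

open Finset Filter Topology

open scoped Classical

namespace Pool.Agent.Helper23.MC

open Pool.Agent.Helper88.PP (pr Rg om Sf SS uu vv ee LA VV QQ cost)
open Pool.Agent.Helper88.RR (gg ab TB WB nz wb DB Db VM)
open Pool.Agent.Helper88.GM (NI XI gB In)
open Pool.Agent.Helper88.CG (tw pw th ic DS sg CN qE mE)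
open Pool.Agent.Helper88.CR (Rec)

/-! ## For `StmtCBL` -/

/-- the weighted number of the primes `n + j` such that every `p ∈ A` divides some `n + i`,
`i ∈ B` -/
noncomputable def PW (x b j : ℕ) (B A : Finset ℕ) : ℝ :=
  ∑ n ∈ NI (x / 32) x (QQ x) b, pw x (n + j) * (if ∀ p ∈ A, ∃ i ∈ B, p ∣ n + i then 1 else 0)

/-- `PW` by progressions.
Proof.  For `A ⊆ pr y z`: for every `n` and `p ∈ A` there is at most one `i ∈ B` with `p ∣ n + i`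
(`|i - i'| < y < p`).  So `PW A = ∑_{f : A → B} th x (QQ x ∏A) a_f`, `a_f` the class with
`a_f ≡ b + j (QQ x)`, `a_f ≡ j - f p (p)`, which is prime to the modulus (`0 < |j - f p| < y < p`;
the primes `p > y` do not divide `QQ x`, whose prime factors are `≤ log x/20`); `pw x m = 0` for
`m ≤ x/16` and for `m ≥ x`, so the range of `n` does not matter (`j ≤ x/32`).  For `A = A₁ ∪ A₂`,
`f = (f₁, f₂)`, the class `a_f` modulo `QQ x ∏A₁` is `a_{f₁}`.  So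
`PW (A₁ ∪ A₂) - (#B)^#A₂/φ(∏A₂) PW A₁ = ∑_{f₁, f₂} (th x (QQ x ∏A₁ ∏A₂) a_f -
th x (QQ x ∏A₁) a_f/φ(∏A₂))`; let `a A₂` be the `a_f` with the largest absolute value of the
bracket (if `B` is empty and `A₁ ∪ A₂` is not, the left side is `0` and `a A₂ = 1`). -/
def StmtPWA : Prop := ∃ x0 : ℕ, ∀ x y z b j : ℕ, x0 ≤ x → Real.log x ≤ y → 32 * y ≤ x →
  b < QQ x → Nat.Coprime (b + j) (QQ x) → j ∈ Icc 1 y → ∀ B : Finset ℕ, B ⊆ Icc 1 y → j ∉ B →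
  ∀ A₁ ⊆ pr y z, ∃ a : Finset ℕ → ℕ, ∀ A₂ ⊆ pr y z, Disjoint A₁ A₂ →
    Nat.Coprime (a A₂) (QQ x * (∏ p ∈ A₁, p) * ∏ p ∈ A₂, p) ∧
    |PW x b j B (A₁ ∪ A₂) - (B.card : ℝ) ^ A₂.card / (Nat.totient (∏ p ∈ A₂, p) : ℝ) *
        PW x b j B A₁|
      ≤ (B.card : ℝ) ^ (A₁.card + A₂.card) *
        |th x (QQ x * (∏ p ∈ A₁, p) * ∏ p ∈ A₂, p) (a A₂)
          - th x (QQ x * ∏ p ∈ A₁, p) (a A₂) / (Nat.totient (∏ p ∈ A₂, p) : ℝ)|

/-- Two ranges of primes, Bonferroni.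
Proof.  For `n` let `N_m` be the number of the `p ∈ I_m` dividing some `n + i`, `i ∈ B`
(`I_1 = pr y y₂`, `I_2 = pr y₂ z`), `T_m = ∑_{i ≤ r} (-1)^i C(N_m, i)`, `E_m = C(N_m, r + 1)`,
`a_m = [N_m = 0]`.  `|a_m - T_m| ≤ E_m` (`T_m = (-1)^r C(N_m - 1, r)` for `N_m ≥ 1`; or
`Pool/Agent/Helper6/RR/BO.lean`, `alt_bound`), so
`|a_1 a_2 - T_1 T_2| ≤ E_1 |T_2| + E_2 ≤ E_1 (1 + E_2) + E_2`.  The left side is at most
`∑_n (E_1 + E_2 + E_1 E_2)` (`0 ≤ pw ≤ 1`), and for `A ⊆ pr y z`, `A ≠ ∅`,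
`#{n ∈ NI : every p ∈ A divides some n + i} ≤ β^#A (XI/∏A + 1)` (for every `f : A → B` one class
modulo `QQ x ∏A`), `∑_{A ⊆ I, #A = k} 1/∏A ≤ S^k/k!`, the number of the `A ⊆ I` with `#A = k` is at most
`z^k`. -/
def StmtBF : Prop := ∀ (x y y₂ z b j r : ℕ), 16 ≤ x → Real.log x ≤ y → y ≤ y₂ → y₂ ≤ z → 1 ≤ z →
  b < QQ x → ∀ B : Finset ℕ, B ⊆ Icc 1 y →
  ∀ S : ℝ, S = B.card * ∑ p ∈ pr y z, 1 / (p : ℝ) → S ^ (r + 1) / (r + 1).factorial ≤ 1 →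
  |∑ n ∈ NI (x / 32) x (QQ x) b, (if ∀ i ∈ B, Rg y z (n + i) then pw x (n + j) else 0)
      - ∑ A₁ ∈ (pr y y₂).powerset.filter (fun A => A.card ≤ r),
          ∑ A₂ ∈ (pr y₂ z).powerset.filter (fun A => A.card ≤ r),
            (-1 : ℝ) ^ (A₁.card + A₂.card) * PW x b j B (A₁ ∪ A₂)|
    ≤ 3 * XI (x / 32) x (QQ x) * (S ^ (r + 1) / (r + 1).factorial)
      + 3 * ((B.card : ℝ) * z) ^ (2 * r + 2)

/-! ## For `StmtMT` -/

/-- Bounds for `NH H (TH E z H) (kH E z β H)`.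
Proof.  `κ s ^ 2 ∏ φ(s i) = ∏ 1/(φ(s i) (E + β ee)^2)`.  Upper bound: drop the condition on the cost
(`Finset.prod_univ_sum`).  Lower bound: the term `s = 1` (`ee z 1 = 1`, cost `#H ≤ E/32`,
`1 ∈ SS z (z^(E/64))`), `(E + β)^(-2#H) ≥ (2E)^(-2#H)`.  `Ad 1`: `z^(E/64) ≤ z^(E/32)`;
`s < z^(ee z s)` (`Nat.lt_pow_succ_log_self`), so `∏ s i ≤ z^(∑ ee) ≤ z^(E/32)`; `E + β ee ≥ E`. -/
def StmtNU : Prop := ∀ E z β : ℕ, 64 ≤ E → 2 ≤ z → β ≤ E → ∀ H : Finset ℕ, H.card ≤ E / 32 →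
  Ad 1 E z H (TH E z H) (kH E z β H) ∧
  1 / (2 * (E : ℝ)) ^ (2 * H.card) ≤ NH H (TH E z H) (kH E z β H) ∧
  NH H (TH E z H) (kH E z β H) ≤
    (∑ s ∈ SS z (z ^ (E / 64)), 1 / ((Nat.totient s : ℝ) * (E + β * ee z s) ^ 2)) ^ H.card

/-- Lower bound for `NH (H.erase j)`.
Proof.  Let `G = H.erase j`, `f(s) = 1/(φ(s)(E + β ee z s))`, `M = E/64`.
`Ad C`: `|kj s'| ≤ ∏_{i ∈ G} f(s' i) · I1 ≤ C ∏ 1/(E φ)`; the other parts as in `StmtNU` (a restriction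
of an element of `TH`; its product is at most that of the element).
Lower bound: every `s' : G → SS z (z^M)` with `∑ ee ≤ M` is in `Tj` (restriction of `s` with any label
`s j ∈ SS z (z^M)`: `ee z (s j) ≤ M` and `2 M ≤ E/32`) and the sum over the label at `j` is
`kj s' = I1 ∏_{i ∈ G} f(s' i)`.  So `NH G ≥ I1² ∑_{s', ∑ ee ≤ M} ∏ 1/(φ (E + β ee)²)`, and
the sum over all `s' : G → SS` is `I2^#G`, that over the `s'` with `∑ ee > M` at most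
`(1/M) ∑_{s'} (∑ ee) ∏ .. = (1/M) #G J I2^(#G - 1)`. -/
def StmtNL : Prop := ∀ E z β : ℕ, 64 ≤ E → 2 ≤ z → β ≤ E → ∀ H : Finset ℕ, 2 ≤ H.card →
  H.card ≤ E / 64 → ∀ j ∈ H, ∀ I1 I2 J C : ℝ,
  I1 = ∑ s ∈ SS z (z ^ (E / 64)), 1 / ((Nat.totient s : ℝ) * (E + β * ee z s)) →
  I2 = ∑ s ∈ SS z (z ^ (E / 64)), 1 / ((Nat.totient s : ℝ) * (E + β * ee z s) ^ 2) →
  J = ∑ s ∈ SS z (z ^ (E / 64)), (ee z s : ℝ) / ((Nat.totient s : ℝ) * (E + β * ee z s) ^ 2) →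
  I1 ≤ C → 1 ≤ C →
  Ad C E z (H.erase j) (Tj H j (TH E z H)) (kj H j (TH E z H) (kH E z β H)) ∧
  I1 ^ 2 * (I2 ^ (H.card - 1) - (H.card - 1 : ℕ) / ((E / 64 : ℕ) : ℝ) * J * I2 ^ (H.card - 2))
    ≤ NH (H.erase j) (Tj H j (TH E z H)) (kj H j (TH E z H) (kH E z β H))

/-! ## For `StmtRCH` -/

/-- Averaging over classes.
Proof.  The `b < ∏ L` with `b % l ∈ A l` for all `l ∈ L` correspond to the elements of `∏ A l` (Chinese
remainder theorem, e.g. `Nat.chineseRemainderOfFinset`, or induction on `L`).  `b + h` is prime to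
`∏ L` iff for every `l ∈ L` `b % l ≠ (l - h % l) % l`; so for fixed `h` the number of these `b` is
`∏_l (#A l - [(l - h % l) % l ∈ A l])`.  Sum over `h ∈ Z` and take a `b` with at most the average. -/
def StmtAVG : Prop := ∀ (L Z : Finset ℕ) (A : ℕ → Finset ℕ), (∀ l ∈ L, l.Prime) →
  (∀ l ∈ L, A l ⊆ range l ∧ (A l).Nonempty) →
  ∃ b : ℕ, b < ∏ l ∈ L, l ∧ (∀ l ∈ L, b % l ∈ A l) ∧
  ((Z.filter (fun h => Nat.Coprime (b + h) (∏ l ∈ L, l))).card : ℝ)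
    ≤ ∑ h ∈ Z, ∏ l ∈ L, (1 - (if (l - h % l) % l ∈ A l then 1 / ((A l).card : ℝ) else 0))

end Pool.Agent.Helper23.MC
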